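import Pool.Agent.R253.KF.Mom

set_option autoImplicit false

namespace Pool.Agent.R253.KF

open Complex Metric Set Filter Topology MeasureTheory ComplexConjugate
open Pool.Agent.R253.BE

section

variable {ι : Type*}

/-- a double power series in `z`, `conj z` -/
noncomputable def psiF (u : ι → ℂ) (A B : ι → ℕ) (z : ℂ) : ℂ := ∑' i, u i * (z ^ A i * conj z ^ B i)

/-- its Bergman projection -/
noncomputable def prjF (u : ι → ℂ) (A B : ι → ℕ) (z : ℂ) : ℂ :=
  ∑' i, u i * ((cc (A i) (B i) : ℂ) * z ^ (A i - B i))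

variable {u : ι → ℂ} (hu : Summable fun i => ‖u i‖) (A B : ι → ℕ)

lemma psi_term (u : ι → ℂ) (A B : ι → ℕ) (i : ι) {z : ℂ} (hz : ‖z‖ ≤ 1) :
    ‖u i * (z ^ A i * conj z ^ B i)‖ ≤ ‖u i‖ := by
  rw [norm_mul, norm_mul, norm_pow, norm_pow, RCLike.norm_conj]
  have h2 : ‖z‖ ^ A i ≤ 1 := pow_le_one₀ (norm_nonneg _) hz
  have h3 : ‖z‖ ^ B i ≤ 1 := pow_le_one₀ (norm_nonneg _) hz
  have h4 : ‖u i‖ * (‖z‖ ^ A i * ‖z‖ ^ B i) ≤ ‖u i‖ * (1 * 1) := by gcongr
  linarith

lemma prj_term (u : ι → ℂ) (A B : ι → ℕ) (i : ι) {z : ℂ} (hz : ‖z‖ ≤ 1) :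
    ‖u i * ((cc (A i) (B i) : ℂ) * z ^ (A i - B i))‖ ≤ ‖u i‖ := by
  rw [norm_mul, norm_mul, norm_pow, Complex.norm_real, Real.norm_eq_abs,
    abs_of_nonneg (cc_nonneg _ _)]
  have h2 : ‖z‖ ^ (A i - B i) ≤ 1 := pow_le_one₀ (norm_nonneg _) hz
  have h3 := cc_le_one (A i) (B i)
  have h4 : ‖u i‖ * (cc (A i) (B i) * ‖z‖ ^ (A i - B i)) ≤ ‖u i‖ * (1 * 1) := by
    gcongr
  linarith

include hu

lemma prj_cont : ContinuousOn (prjF u A B) (closedBall 0 1) := by
  unfold prjF
  apply continuousOn_tsum (u := fun i => ‖u i‖) _ hu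
  · intro i z hz
    exact prj_term u A B i (mem_closedBall_zero_iff.1 hz)
  · intro i
    fun_prop

lemma psi_cont : ContinuousOn (psiF u A B) (closedBall 0 1) := by
  unfold psiF
  apply continuousOn_tsum (u := fun i => ‖u i‖) _ hu
  · intro i z hz
    exact psi_term u A B i (mem_closedBall_zero_iff.1 hz)
  · intro i
    have : Continuous fun z : ℂ => u i * (z ^ A i * conj z ^ B i) := by
      have := Complex.continuous_conj
      fun_prop
    exact this.continuousOn

lemma prj_diff : DifferentiableOn ℂ (prjF u A B) (ball 0 1) := by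
  unfold prjF
  apply differentiableOn_tsum_of_summable_norm hu _ isOpen_ball
  · intro i z hz
    exact prj_term u A B i (mem_ball_zero_iff.1 hz).le
  · intro i
    fun_prop

lemma prj_summable {z : ℂ} (hz : ‖z‖ ≤ 1) :
    Summable fun i => u i * ((cc (A i) (B i) : ℂ) * z ^ (A i - B i)) :=
  Summable.of_norm_bounded hu fun i => prj_term u A B i hz

lemma psi_summable {z : ℂ} (hz : ‖z‖ ≤ 1) :
    Summable fun i => u i * (z ^ A i * conj z ^ B i) :=
  Summable.of_norm_bounded hu fun i => psi_term u A B i hz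

/-- the projection has the same pairing with conjugates of analytic functions -/
theorem fam_pair [Countable ι] {f : ℂ → ℂ} (hf : DifferentiableOn ℂ f (ball 0 1)) (hi : IntegrableOn f (ball 0 1)) :
    ∫ z in ball (0:ℂ) 1, prjF u A B z * conj (f z) = ∫ z in ball (0:ℂ) 1, psiF u A B z * conj (f z) := by
  set μ : Measure ℂ := volume.restrict (ball (0:ℂ) 1) with hμ
  have hae : ∀ᵐ z ∂μ, ‖z‖ ≤ 1 := by
    filter_upwards [ae_restrict_mem measurableSet_ball] with z hz
    exact (mem_ball_zero_iff.1 hz).le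
  have hcf : AEStronglyMeasurable (fun z => conj (f z)) μ :=
    Complex.continuous_conj.comp_aestronglyMeasurable hi.aestronglyMeasurable
  -- generic exchange
  have key : ∀ t : ι → ℂ → ℂ, (∀ i, Continuous (t i)) → (∀ i z, ‖z‖ ≤ 1 → ‖t i z‖ ≤ ‖u i‖) →
      HasSum (fun i => ∫ z, t i z * conj (f z) ∂μ) (∫ z, (∑' i, t i z) * conj (f z) ∂μ) := by
    intro t ht hb
    have hint : ∀ i, Integrable (fun z => t i z * conj (f z)) μ := by
      intro i
      apply Integrable.mono' (g := fun z => ‖u i‖ * ‖f z‖) (hi.norm.const_mul _)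
      · exact (ht i).aestronglyMeasurable.mul hcf
      · filter_upwards [hae] with z hz
        rw [norm_mul, RCLike.norm_conj]
        exact mul_le_mul_of_nonneg_right (hb i z hz) (norm_nonneg _)
    have hsum : Summable fun i => ∫ z, ‖t i z * conj (f z)‖ ∂μ := by
      apply Summable.of_nonneg_of_le (fun i => integral_nonneg fun z => norm_nonneg _) _
        (hu.mul_right (∫ z, ‖f z‖ ∂μ))
      intro i
      rw [← integral_const_mul]
      apply integral_mono_ae (hint i).norm (hi.norm.const_mul _)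
      filter_upwards [hae] with z hz
      rw [norm_mul, RCLike.norm_conj]
      exact mul_le_mul_of_nonneg_right (hb i z hz) (norm_nonneg _)
    have h := hasSum_integral_of_summable_integral_norm hint hsum
    have e : ∀ z, ∑' i, t i z * conj (f z) = (∑' i, t i z) * conj (f z) := fun z => tsum_mul_right
    simp only [e] at h
    exact h
  have h1 := key (fun i z => u i * ((cc (A i) (B i) : ℂ) * z ^ (A i - B i))) (fun i => by fun_prop)
    (fun i z hz => prj_term u A B i hz)
  have h2 := key (fun i z => u i * (z ^ A i * conj z ^ B i)) (fun i => by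
      have := Complex.continuous_conj
      fun_prop)
    (fun i z hz => psi_term u A B i hz)
  have e3 : ∀ i, ∫ z, u i * ((cc (A i) (B i) : ℂ) * z ^ (A i - B i)) * conj (f z) ∂μ =
      ∫ z, u i * (z ^ A i * conj z ^ B i) * conj (f z) ∂μ := by
    intro i
    have m := mom hf hi (A i) (B i)
    have e4 : ∀ z, u i * ((cc (A i) (B i) : ℂ) * z ^ (A i - B i)) * conj (f z) =
        u i * ((cc (A i) (B i) : ℂ) * (z ^ (A i - B i) * conj (f z))) := fun z => by ring
    have e5 : ∀ z, u i * (z ^ A i * conj z ^ B i) * conj (f z) =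
        u i * (z ^ A i * conj z ^ B i * conj (f z)) := fun z => by ring
    simp only [e4, e5]
    rw [integral_const_mul, integral_const_mul, integral_const_mul, m]
  simp only [e3] at h1
  exact h1.unique h2

end

/-- a function analytic in the disc and continuous on its closure is determined by its pairings -/
lemma uniq {k k' : ℂ → ℂ} (hk : DifferentiableOn ℂ k (ball 0 1)) (hc : ContinuousOn k (closedBall 0 1))
    (hk' : DifferentiableOn ℂ k' (ball 0 1)) (hc' : ContinuousOn k' (closedBall 0 1))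
    (h : ∀ f : ℂ → ℂ, DifferentiableOn ℂ f (ball 0 1) → IntegrableOn f (ball 0 1) →
      ∫ z in ball (0:ℂ) 1, k z * conj (f z) = ∫ z in ball (0:ℂ) 1, k' z * conj (f z)) :
    EqOn k k' (closedBall 0 1) := by
  set d : ℂ → ℂ := fun z => k z - k' z with hd
  have hdc : ContinuousOn d (closedBall 0 1) := hc.sub hc'
  have hcomp : IsCompact (closedBall (0:ℂ) 1) := isCompact_closedBall 0 1
  have hci : ∀ g : ℂ → ℂ, ContinuousOn g (closedBall 0 1) → IntegrableOn g (ball 0 1) := fun g hg =>
    (hg.integrableOn_compact hcomp).mono_set ball_subset_closedBall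
  have hdi : IntegrableOn d (ball 0 1) := hci d hdc
  have h1 := h d (hk.sub hk') hdi
  have hconj : ContinuousOn (fun z => conj (d z)) (closedBall 0 1) :=
    Complex.continuous_conj.comp_continuousOn hdc
  have h2 : ∫ z in ball (0:ℂ) 1, d z * conj (d z) = 0 := by
    have e : ∀ z, d z * conj (d z) = k z * conj (d z) - k' z * conj (d z) := fun z => by
      simp only [hd]; ring
    simp only [e]
    have i1 : IntegrableOn (fun z => k z * conj (d z)) (ball 0 1) := hci _ (hc.mul hconj)
    have i2 : IntegrableOn (fun z => k' z * conj (d z)) (ball 0 1) := hci _ (hc'.mul hconj)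
    rw [integral_sub i1 i2, h1, sub_self]
  have h3 : ∫ z in ball (0:ℂ) 1, ‖d z‖ ^ 2 = 0 := by
    have e : ∀ z, d z * conj (d z) = ((‖d z‖ ^ 2 : ℝ) : ℂ) := fun z => by
      rw [Complex.mul_conj']; push_cast; rfl
    simp only [e] at h2
    rw [integral_complex_ofReal] at h2
    exact_mod_cast h2
  have h4 : (fun z => ‖d z‖ ^ 2) =ᵐ[volume.restrict (ball (0:ℂ) 1)] 0 := by
    apply (integral_eq_zero_iff_of_nonneg (fun z => by simp only [Pi.zero_apply]; positivity) _).1 h3
    exact ((hdc.norm.pow 2).integrableOn_compact hcomp).mono_set ball_subset_closedBall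
  have h5 : d =ᵐ[volume.restrict (ball (0:ℂ) 1)] fun _ => 0 := by
    filter_upwards [h4] with z hz
    simp only [Pi.zero_apply] at hz
    exact norm_eq_zero.1 (pow_eq_zero_iff (two_ne_zero)|>.1 hz)
  have h6 : EqOn d (fun _ => 0) (ball 0 1) :=
    Measure.eqOn_open_of_ae_eq h5 isOpen_ball (hdc.mono ball_subset_closedBall) continuousOn_const
  have h7 : EqOn k k' (ball 0 1) := fun z hz => sub_eq_zero.1 (h6 hz)
  have h8 : closure (ball (0:ℂ) 1) = closedBall 0 1 := closure_ball 0 one_ne_zero
  rw [← h8]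
  apply Set.EqOn.of_subset_closure h7 (by rw [h8]; exact hc) (by rw [h8]; exact hc')
    subset_closure le_rfl

/-- Taylor coefficients of a function analytic in a disc of radius larger than one -/
lemma exists_coeff {f : ℂ → ℂ} {R : ℝ} (hR : 1 < R) (hf : DifferentiableOn ℂ f (ball 0 R)) :
    ∃ a : ℕ → ℂ, (Summable fun n => ‖a n‖) ∧ ∀ z : ℂ, ‖z‖ ≤ 1 → HasSum (fun n => a n * z ^ n) (f z) := by
  obtain ⟨r, hr1, hrR⟩ := exists_between hR
  have hr0 : 0 < r := by linarith
  set rr : NNReal := ⟨r, hr0.le⟩ with hrr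
  have hd : DifferentiableOn ℂ f (closedBall 0 (rr:ℝ)) := hf.mono (closedBall_subset_ball hrR)
  have hp := hd.hasFPowerSeriesOnBall (show 0 < rr from hr0)
  set p := cauchyPowerSeries f 0 (rr:ℝ) with hpd
  have h1r : (1:ENNReal) < rr := by
    have : (1:NNReal) < rr := hr1
    exact_mod_cast this
  refine ⟨p.coeff, ?_, ?_⟩
  · have h := p.summable_norm_mul_pow (r := 1) (lt_of_lt_of_le (by exact_mod_cast h1r) hp.r_le)
    simpa using h
  · intro z hz
    have hmem : z ∈ Metric.eball (0:ℂ) rr := by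
      rw [Metric.mem_eball, edist_zero_right]
      refine lt_of_le_of_lt ?_ h1r
      rw [← ENNReal.ofReal_one, ← ofReal_norm]
      exact ENNReal.ofReal_le_ofReal hz
    have h := hp.hasSum hmem
    rw [zero_add] at h
    have e : (fun n => p.coeff n * z ^ n) = fun n => p n fun _ => z := by
      ext n
      rw [FormalMultilinearSeries.apply_eq_pow_smul_coeff, smul_eq_mul, mul_comm]
    rw [e]
    exact h

end Pool.Agent.R253.KF
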