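import Pool.Agent.R253.KF.Weak

set_option autoImplicit false

namespace Pool.Agent.R253.KF

open Complex Metric Set Filter Topology MeasureTheory ComplexConjugate
open Pool.Agent.R253.BE

lemma tele {a : ℕ → ℝ} (h : ∀ j, a (j + 1) ≤ a j + (1 / 2 : ℝ) ^ (j + 1)) (j : ℕ) : a j ≤ a 0 + 1 := by
  have h2 : ∀ j, a j ≤ a 0 + (1 - (1 / 2 : ℝ) ^ j) := by
    intro j
    induction j with
    | zero => simp
    | succ j ih =>
      have := h j
      have e : (1 / 2 : ℝ) ^ (j + 1) = (1 / 2) ^ j * (1 / 2) := pow_succ _ _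
      linarith
  have := h2 j
  have h3 : 0 < (1 / 2 : ℝ) ^ j := by positivity
  linarith

lemma GH_norm (ν : ℝ) (L : ℂ → ℂ) (z : ℂ) : ‖GH ν L z‖ = Real.exp ((1 - ν) * (L z).re) := by
  unfold GH
  rw [norm_mul, RCLike.norm_conj, Complex.norm_exp, Complex.norm_exp, ← Real.exp_add,
    show -(ν:ℂ) = ((-ν : ℝ) : ℂ) by push_cast; rfl, Complex.re_ofReal_mul]
  congr 1; ring

lemma GH_pow {ν q : ℝ} (h : (1 - ν) * q = 2) (L : ℂ → ℂ) (z : ℂ) :
    ‖GH ν L z‖ ^ q = ‖exp (L z)‖ ^ (2:ℝ) := by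
  rw [GH_norm, Complex.norm_exp, ← Real.exp_mul, ← Real.exp_mul]
  congr 1
  calc (1 - ν) * (L z).re * q = ((1 - ν) * q) * (L z).re := by ring
    _ = _ := by rw [h]; ring

theorem limit_objects {p q r ν : ℝ} (hpq : p.HolderConjugate q) (hr : 1 ≤ r)
    (hν : ν * r = r - 1 / 2) (hνq : (1 - ν) * q = 2) :
    ∃ L k : ℂ → ℂ, DifferentiableOn ℂ L (ball 0 1) ∧ DifferentiableOn ℂ k (ball 0 1) ∧
      IntegrableOn (fun z => ‖exp (L z)‖ ^ (2:ℝ)) (ball 0 1) ∧
      IntegrableOn (fun z => ‖k z‖ ^ q) (ball 0 1) ∧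
      (∃ B : ℝ, ∀ ρ : ℝ, 0 < ρ → ρ < 1 →
        ∫ θ in (0:ℝ)..(2 * Real.pi), ‖k (circleMap 0 ρ θ)‖ ^ r ≤ B) ∧
      (∀ f : ℂ → ℂ, DifferentiableOn ℂ f (ball 0 1) → IntegrableOn (fun z => ‖f z‖ ^ p) (ball 0 1) →
        ∫ z in ball (0:ℂ) 1, k z * conj (f z) = ∫ z in ball (0:ℂ) 1, GH ν L z * conj (f z)) ∧
      ∀ T : ℝ, ∃ ρ : ℝ, 0 < ρ ∧ ρ < 1 ∧
        T ≤ ∫ θ in (0:ℝ)..(2 * Real.pi), ‖exp (L (circleMap 0 ρ θ))‖ ^ (1 / 2 : ℝ) := by
  have hp1 := hpq.lt
  have hq0 := hpq.symm.pos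
  obtain ⟨L, k, ρ, hL0, hk0, hSt, hρ0, hρ1, hρm, hρh, hLs, hks, hI1, hI2, hI3, hT⟩ :=
    exists_seq (ν := ν) (r := r) (q := q) hr hq0.le hν
  have hmono : Monotone ρ := monotone_nat_of_le_succ fun j => (hρm j).le
  have hpow : Tendsto (fun n : ℕ => (1 / 2 : ℝ) ^ n) atTop (𝓝 0) :=
    tendsto_pow_atTop_nhds_zero_of_lt_one (by norm_num) (by norm_num)
  have hρl : Tendsto ρ atTop (𝓝 1) := by
    rw [← tendsto_add_atTop_iff_nat 1]
    have h1 : Tendsto (fun n : ℕ => 1 - (1 / 2 : ℝ) ^ (n + 1)) atTop (𝓝 (1 - 0)) :=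
      ((tendsto_add_atTop_iff_nat 1).2 hpow).const_sub 1
    rw [sub_zero] at h1
    exact tendsto_of_tendsto_of_tendsto_of_le_of_le h1 tendsto_const_nhds (fun n => (hρh n).le)
      fun n => (hρ1 _).le
  have hLc : ∀ j, ContinuousOn (L j) (closedBall 0 1) := by
    intro j
    obtain ⟨R, hR, hd⟩ := (hSt j).hL
    exact hd.continuousOn.mono (closedBall_subset_ball hR)
  have hLd : ∀ j, DifferentiableOn ℂ (L j) (ball 0 1) := by
    intro j
    obtain ⟨R, hR, hd⟩ := (hSt j).hL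
    exact hd.mono (ball_subset_ball hR.le)
  obtain ⟨Li, hLid, hLib⟩ := seq_limit hmono hρ1 hρl hLd hLs
  obtain ⟨ki, hkid, hkib⟩ := seq_limit hmono hρ1 hρl (fun j => (hSt j).kd) hks
  -- pointwise convergence
  have hpt : ∀ (f : ℕ → ℂ → ℂ) (F : ℂ → ℂ), (∀ j z, ‖z‖ ≤ ρ j → ‖F z - f j z‖ ≤ (1 / 2 : ℝ) ^ j) →
      ∀ z ∈ ball (0:ℂ) 1, Tendsto (fun j => f j z) atTop (𝓝 (F z)) := by
    intro f F h z hz
    rw [mem_ball_zero_iff] at hz
    rw [tendsto_iff_norm_sub_tendsto_zero]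
    apply squeeze_zero' (Eventually.of_forall fun j => norm_nonneg _) _ hpow
    filter_upwards [hρl.eventually (lt_mem_nhds hz)] with j hj
    rw [norm_sub_rev]
    exact h j z hj.le
  have hLp := hpt L Li hLib
  have hkp := hpt k ki hkib
  -- uniform bounds
  set B1 : ℝ := (∫ z in ball (0:ℂ) 1, ‖exp (L 0 z)‖ ^ (2:ℝ)) + 1 with hB1
  set B2 : ℝ := (∫ z in ball (0:ℂ) 1, ‖k 0 z‖ ^ q) + 1 with hB2
  set B3 : ℝ := (∫ θ in (0:ℝ)..(2 * Real.pi), ‖k 0 (circleMap 0 1 θ)‖ ^ r) + 1 with hB3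
  have b1 : ∀ j, ∫ z in ball (0:ℂ) 1, ‖exp (L j z)‖ ^ (2:ℝ) ≤ B1 := tele hI1
  have b2 : ∀ j, ∫ z in ball (0:ℂ) 1, ‖k j z‖ ^ q ≤ B2 := tele hI2
  have b3 : ∀ j, ∫ θ in (0:ℝ)..(2 * Real.pi), ‖k j (circleMap 0 1 θ)‖ ^ r ≤ B3 := tele hI3
  have hci : ∀ (g : ℂ → ℝ), ContinuousOn g (closedBall 0 1) → IntegrableOn g (ball 0 1) := fun g hg =>
    (hg.integrableOn_compact (isCompact_closedBall 0 1)).mono_set ball_subset_closedBall
  have c1 : ∀ j, ContinuousOn (fun z => ‖exp (L j z)‖ ^ (2:ℝ)) (closedBall 0 1) := fun j =>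
    (hLc j).cexp.norm.rpow_const fun _ _ => Or.inr (by norm_num)
  have c2 : ∀ j, ContinuousOn (fun z => ‖k j z‖ ^ q) (closedBall 0 1) := fun j =>
    (hSt j).kc.norm.rpow_const fun _ _ => Or.inr hq0.le
  have m1 : ContinuousOn (fun z => ‖exp (Li z)‖ ^ (2:ℝ)) (ball 0 1) :=
    hLid.continuousOn.cexp.norm.rpow_const fun _ _ => Or.inr (by norm_num)
  have m2 : ContinuousOn (fun z => ‖ki z‖ ^ q) (ball 0 1) :=
    hkid.continuousOn.norm.rpow_const fun _ _ => Or.inr hq0.le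
  have F1 := fatou_ball (f := fun j z => ‖exp (L j z)‖ ^ (2:ℝ)) (g := fun z => ‖exp (Li z)‖ ^ (2:ℝ))
    (fun j z => by positivity) (fun j => hci _ (c1 j)) b1 (m1.aestronglyMeasurable measurableSet_ball)
    (fun z hz => (((Complex.continuous_exp.tendsto _).comp (hLp z hz)).norm).rpow_const
      (Or.inr (by norm_num)))
  have F2 := fatou_ball (f := fun j z => ‖k j z‖ ^ q) (g := fun z => ‖ki z‖ ^ q)
    (fun j z => by positivity) (fun j => hci _ (c2 j)) b2 (m2.aestronglyMeasurable measurableSet_ball)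
    (fun z hz => ((hkp z hz).norm).rpow_const (Or.inr hq0.le))
  refine ⟨Li, ki, hLid, hkid, F1.1, F2.1, ⟨B3, ?_⟩, ?_, ?_⟩
  · -- Hardy means of the kernel
    intro s hs0 hs1
    have hj : ∀ j, ∫ θ in (0:ℝ)..(2 * Real.pi), ‖k j (circleMap 0 s θ)‖ ^ r ≤ B3 := by
      intro j
      refine le_trans ?_ (b3 j)
      have hl := lim_radius (V := fun z => ‖k j z‖ ^ r)
        ((hSt j).kc.norm.rpow_const fun _ _ => Or.inr (by linarith))
      apply ge_of_tendsto hl
      filter_upwards [Ioo_mem_nhdsLT hs1] with S hS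
      exact mean_mono (hSt j).kd (by linarith) hs0 hS.1.le hS.2
    have hcl : closedBall (0:ℂ) s ⊆ ball 0 1 := closedBall_subset_ball hs1
    have hmem : ∀ θ, circleMap 0 s θ ∈ closedBall (0:ℂ) s := fun θ => by
      rw [mem_closedBall_zero_iff, norm_circleMap_zero, abs_of_pos hs0]
    obtain ⟨C, hC⟩ := (isCompact_closedBall (0:ℂ) s).exists_bound_of_continuousOn
      (hkid.continuousOn.mono hcl)
    have hC0 : 0 ≤ C := (norm_nonneg _).trans (hC 0 (by simp [hs0.le]))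
    have hlim : Tendsto (fun j => ∫ θ in (0:ℝ)..(2 * Real.pi), ‖k j (circleMap 0 s θ)‖ ^ r) atTop
        (𝓝 (∫ θ in (0:ℝ)..(2 * Real.pi), ‖ki (circleMap 0 s θ)‖ ^ r)) := by
      apply intervalIntegral.tendsto_integral_filter_of_dominated_convergence (fun _ => (C + 1) ^ r)
      · refine Eventually.of_forall fun j => ?_
        apply Continuous.aestronglyMeasurable
        apply Continuous.rpow_const _ fun _ => Or.inr (by linarith)
        apply Continuous.norm
        exact (hSt j).kd.continuousOn.comp_continuous (continuous_circleMap 0 s)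
          fun θ => hcl (hmem θ)
      · filter_upwards [hρl.eventually (lt_mem_nhds hs1)] with j hj'
        refine Eventually.of_forall fun θ _ => ?_
        rw [Real.norm_eq_abs, abs_of_nonneg (by positivity)]
        apply Real.rpow_le_rpow (norm_nonneg _) _ (by linarith)
        have h1 := hC _ (hmem θ)
        have h2 := hkib j (circleMap 0 s θ) ((mem_closedBall_zero_iff.1 (hmem θ)).trans hj'.le)
        have h3 : (1 / 2 : ℝ) ^ j ≤ 1 := pow_le_one₀ (by norm_num) (by norm_num)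
        have h4 : ‖k j (circleMap 0 s θ)‖ ≤ ‖ki (circleMap 0 s θ)‖ +
            ‖ki (circleMap 0 s θ) - k j (circleMap 0 s θ)‖ := by
          have e : k j (circleMap 0 s θ) = ki (circleMap 0 s θ) -
            (ki (circleMap 0 s θ) - k j (circleMap 0 s θ)) := by ring
          conv_lhs => rw [e]
          exact norm_sub_le _ _
        linarith
      · exact intervalIntegrable_const
      · refine Eventually.of_forall fun θ _ => ?_
        exact ((hkp _ (hcl (hmem θ))).norm).rpow_const (Or.inr (by linarith))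
    exact le_of_tendsto' hlim hj
  · -- the pairing
    intro f hf hfi
    have hf1 : IntegrableOn f (ball 0 1) := by
      apply kernel_int (c := 1) one_pos (q := p) hp1.le
      exact ⟨hf, (integrable_am one_pos).2 hfi⟩
    have w1 := weak_lim hpq (g := k) (g0 := ki) (f := f) (B := B2)
      (fun j => (hSt j).kd.continuousOn) hkid.continuousOn (fun j => hci _ (c2 j)) b2 F2.1 F2.2 hkp
      hf.continuousOn hfi
    have w2 := weak_lim hpq (g := fun j => GH ν (L j)) (g0 := GH ν Li) (f := f) (B := B1)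
      (fun j => GH_cont (hLd j).continuousOn) (GH_cont hLid.continuousOn)
      (fun j => by simp only [GH_pow hνq]; exact hci _ (c1 j))
      (fun j => by simp only [GH_pow hνq]; exact b1 j)
      (by simp only [GH_pow hνq]; exact F1.1)
      (by simp only [GH_pow hνq]; exact F1.2)
      (by
        intro z hz
        have h1 := hLp z hz
        unfold GH
        apply Tendsto.mul ((Complex.continuous_exp.tendsto _).comp h1)
        apply (Complex.continuous_conj.tendsto _).comp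
        exact (Complex.continuous_exp.tendsto _).comp (h1.const_mul _))
      hf.continuousOn hfi
    have e : ∀ j, ∫ z in ball (0:ℂ) 1, k j z * conj (f z) = ∫ z in ball (0:ℂ) 1, GH ν (L j) z * conj (f z) :=
      fun j => (hSt j).pr f hf hf1
    simp only [e] at w1
    exact tendsto_nhds_unique w1 w2
  · -- the means of `exp L` are unbounded
    intro T
    obtain ⟨j, hj⟩ := exists_nat_ge (T * Real.exp (1 / 2))
    have h0 : 0 < ρ (j + 1) := lt_of_le_of_lt (hρ0 j) (hρm j)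
    refine ⟨ρ (j + 1), h0, hρ1 _, ?_⟩
    have hle := hj.trans (hT j)
    have hmem : ∀ θ, circleMap 0 (ρ (j + 1)) θ ∈ ball (0:ℂ) 1 := fun θ => by
      rw [mem_ball_zero_iff, norm_circleMap_zero, abs_of_pos h0]
      exact hρ1 _
    have hpt2 : ∀ θ : ℝ, ‖exp (L (j + 1) (circleMap 0 (ρ (j + 1)) θ))‖ ^ (1 / 2 : ℝ) ≤
        Real.exp (1 / 2) * ‖exp (Li (circleMap 0 (ρ (j + 1)) θ))‖ ^ (1 / 2 : ℝ) := by
      intro θ
      set z := circleMap 0 (ρ (j + 1)) θ with hz
      have h1 := hLib (j + 1) z (by rw [hz, norm_circleMap_zero, abs_of_pos h0])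
      have h2 : (1 / 2 : ℝ) ^ (j + 1) ≤ 1 := pow_le_one₀ (by norm_num) (by norm_num)
      have h3 := (abs_le.1 (Complex.abs_re_le_norm (Li z - L (j + 1) z))).1
      rw [Complex.sub_re] at h3
      rw [Complex.norm_exp, Complex.norm_exp, ← Real.exp_mul, ← Real.exp_mul, ← Real.exp_add]
      apply Real.exp_le_exp.2
      linarith
    have hcont : ∀ g : ℂ → ℂ, ContinuousOn g (ball 0 1) →
        Continuous fun θ : ℝ => ‖exp (g (circleMap 0 (ρ (j + 1)) θ))‖ ^ (1 / 2 : ℝ) := by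
      intro g hg
      apply Continuous.rpow_const _ fun _ => Or.inr (by norm_num)
      apply Continuous.norm
      exact hg.cexp.comp_continuous (continuous_circleMap 0 _) hmem
    have h5 : ∫ θ in (0:ℝ)..(2 * Real.pi), ‖exp (L (j + 1) (circleMap 0 (ρ (j + 1)) θ))‖ ^ (1 / 2 : ℝ) ≤
        ∫ θ in (0:ℝ)..(2 * Real.pi),
          Real.exp (1 / 2) * ‖exp (Li (circleMap 0 (ρ (j + 1)) θ))‖ ^ (1 / 2 : ℝ) :=
      intervalIntegral.integral_mono_on (by positivity)
        ((hcont _ (hLd (j + 1)).continuousOn).intervalIntegrable _ _)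
        (((hcont _ hLid.continuousOn).const_mul _).intervalIntegrable _ _) fun θ _ => hpt2 θ
    rw [intervalIntegral.integral_const_mul] at h5
    have h6 : T * Real.exp (1 / 2) ≤ Real.exp (1 / 2) *
        ∫ θ in (0:ℝ)..(2 * Real.pi), ‖exp (Li (circleMap 0 (ρ (j + 1)) θ))‖ ^ (1 / 2 : ℝ) := hle.trans h5
    rw [mul_comm] at h6
    exact le_of_mul_le_mul_left h6 (Real.exp_pos _)

end Pool.Agent.R253.KF
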