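import Pool.Agent.R253.KF.Theta3

set_option autoImplicit false

namespace Pool.Agent.R253.KF

open Complex Metric Set Filter Topology MeasureTheory ComplexConjugate
open Pool.Agent.R253.BE

/-- the index set of the fourfold expansions -/
abbrev I4 : Type := (ℕ × ℕ) × (ℕ × ℕ)

def AA (n : ℕ) (i : I4) : ℕ := i.1.1 + n * i.2.1
def BB (n : ℕ) (i : I4) : ℕ := i.1.2 + n * i.2.2

noncomputable def u4 (g h t x : ℕ → ℂ) (i : I4) : ℂ :=
  (g i.1.1 * conj (h i.1.2)) * (t i.2.1 * conj (x i.2.2))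

lemma hs_mul {α β : Type*} {f : α → ℂ} {g : β → ℂ} {s t : ℂ} (hf : HasSum f s) (hg : HasSum g t)
    (hf' : Summable fun i => ‖f i‖) (hg' : Summable fun i => ‖g i‖) :
    HasSum (fun x : α × β => f x.1 * g x.2) (s * t) :=
  hf.mul hg (summable_mul_of_summable_norm hf' hg')

lemma sm_mul {α β : Type*} {f : α → ℂ} {g : β → ℂ}
    (hf' : Summable fun i => ‖f i‖) (hg' : Summable fun i => ‖g i‖) :
    Summable fun x : α × β => ‖f x.1 * g x.2‖ :=
  Summable.mul_norm hf' hg'

lemma sm_conj {f : ℕ → ℂ} (hf : Summable fun i => ‖f i‖) : Summable fun i => ‖conj (f i)‖ := by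
  simpa only [RCLike.norm_conj] using hf

lemma u4_summable {g h t x : ℕ → ℂ} (hg : Summable fun i => ‖g i‖) (hh : Summable fun i => ‖h i‖)
    (ht : Summable fun i => ‖t i‖) (hx : Summable fun i => ‖x i‖) :
    Summable fun i => ‖u4 g h t x i‖ := by
  have h1 : Summable fun y : ℕ × ℕ => ‖g y.1 * conj (h y.2)‖ :=
    sm_mul (g := fun i => conj (h i)) hg (sm_conj hh)
  have h2 : Summable fun y : ℕ × ℕ => ‖t y.1 * conj (x y.2)‖ :=
    sm_mul (g := fun i => conj (x i)) ht (sm_conj hx)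
  exact sm_mul (f := fun y : ℕ × ℕ => g y.1 * conj (h y.2))
    (g := fun y : ℕ × ℕ => t y.1 * conj (x y.2)) h1 h2

lemma sm_pow {f : ℕ → ℂ} (hf : Summable fun i => ‖f i‖) {z : ℂ} (hz : ‖z‖ ≤ 1) :
    Summable fun i => ‖f i * z ^ i‖ := by
  apply Summable.of_nonneg_of_le (fun i => norm_nonneg _) _ hf
  intro i
  rw [norm_mul, norm_pow]
  have h2 : ‖z‖ ^ i ≤ 1 := pow_le_one₀ (norm_nonneg _) hz
  nlinarith [norm_nonneg (f i)]

lemma hs_conj {f : ℕ → ℂ} {z s : ℂ} (h : HasSum (fun i => f i * z ^ i) s) :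
    HasSum (fun i => conj (f i) * conj z ^ i) (conj s) := by
  have := Complex.hasSum_conj'.2 h
  simpa only [map_mul, map_pow] using this

/-- the product of four series -/
lemma psi4 {g h t x : ℕ → ℂ} (hg : Summable fun i => ‖g i‖) (hh : Summable fun i => ‖h i‖)
    (ht : Summable fun i => ‖t i‖) (hx : Summable fun i => ‖x i‖) {z : ℂ} (hz : ‖z‖ ≤ 1) (n : ℕ)
    {G H T X : ℂ} (sg : HasSum (fun i => g i * z ^ i) G) (sh : HasSum (fun i => h i * z ^ i) H)
    (st : HasSum (fun i => t i * (z ^ n) ^ i) T) (sx : HasSum (fun i => x i * (z ^ n) ^ i) X) :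
    psiF (u4 g h t x) (AA n) (BB n) z = (G * conj H) * (T * conj X) := by
  have hzn : ‖z ^ n‖ ≤ 1 := by rw [norm_pow]; exact pow_le_one₀ (norm_nonneg _) hz
  have hzc : ‖conj z‖ ≤ 1 := by rwa [RCLike.norm_conj]
  have hznc : ‖conj (z ^ n)‖ ≤ 1 := by rwa [RCLike.norm_conj]
  have s1 := hs_mul sg (hs_conj sh) (sm_pow hg hz) (sm_pow (sm_conj hh) hzc)
  have s2 := hs_mul st (hs_conj sx) (sm_pow ht hzn) (sm_pow (sm_conj hx) hznc)
  have m1 := sm_mul (sm_pow hg hz) (sm_pow (sm_conj hh) hzc)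
  have m2 := sm_mul (sm_pow ht hzn) (sm_pow (sm_conj hx) hznc)
  have s := hs_mul s1 s2 m1 m2
  rw [← s.tsum_eq]
  unfold psiF
  apply tsum_congr
  intro i
  unfold u4 AA BB
  rw [map_pow, pow_add, pow_add, pow_mul, pow_mul]
  ring

/-- limit of the moment ratios -/
noncomputable def kc (j l : ℕ) : ℝ := if l < j then ((j:ℝ) - l) / j else 0

lemma kc_nonneg (j l : ℕ) : 0 ≤ kc j l := by
  unfold kc
  split_ifs with h
  · have : (l:ℝ) < j := by exact_mod_cast h
    have h0 : (0:ℝ) ≤ l := by positivity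
    apply div_nonneg <;> linarith
  · exact le_rfl

lemma kc_le_one (j l : ℕ) : kc j l ≤ 1 := by
  unfold kc
  split_ifs with h
  · have : (l:ℝ) < j := by exact_mod_cast h
    have h0 : (0:ℝ) ≤ l := by positivity
    rw [div_le_one (by linarith)]
    linarith
  · exact zero_le_one

lemma cc_tendsto (a b : ℕ) {j l : ℕ} (h : ¬ (j = 0 ∧ l = 0)) :
    Tendsto (fun n : ℕ => cc (a + n * j) (b + n * l)) atTop (𝓝 (kc j l)) := by
  rcases lt_trichotomy l j with hlj | hlj | hlj
  · -- l < j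
    have hj : (0:ℝ) < j := by
      have : 0 < j := by omega
      exact_mod_cast this
    have hev : (fun n : ℕ => ((((a:ℝ) - b + 1) * ((n:ℝ))⁻¹ + ((j:ℝ) - l)) / (((a:ℝ) + 1) * ((n:ℝ))⁻¹ + j)))
        =ᶠ[atTop] fun n : ℕ => cc (a + n * j) (b + n * l) := by
      filter_upwards [eventually_ge_atTop (b + 1)] with n hn
      have hle : b + n * l ≤ a + n * j := by
        have : n * (l + 1) ≤ n * j := Nat.mul_le_mul_left n hlj
        nlinarith
      unfold cc
      rw [if_pos hle]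
      have hn0 : (n:ℝ) ≠ 0 := by
        have : 0 < n := by omega
        positivity
      have e1 : (((a:ℝ) - b + 1) * ((n:ℝ))⁻¹ + ((j:ℝ) - l)) = ((n:ℝ))⁻¹ * ((a:ℝ) + n * j - (b + n * l) + 1) := by
        field_simp; ring
      have e2 : (((a:ℝ) + 1) * ((n:ℝ))⁻¹ + j) = ((n:ℝ))⁻¹ * ((a:ℝ) + n * j + 1) := by
        field_simp; ring
      rw [e1, e2, mul_div_mul_left _ _ (inv_ne_zero hn0), Nat.cast_sub hle]
      push_cast
      rfl
    apply Tendsto.congr' hev
    have hinv : Tendsto (fun n : ℕ => ((n:ℝ))⁻¹) atTop (𝓝 0) := tendsto_inv_atTop_nhds_zero_nat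
    have h1 : Tendsto (fun n : ℕ => (((a:ℝ) - b + 1) * ((n:ℝ))⁻¹ + ((j:ℝ) - l))) atTop
        (𝓝 (((a:ℝ) - b + 1) * 0 + ((j:ℝ) - l))) := (hinv.const_mul _).add_const _
    have h2 : Tendsto (fun n : ℕ => (((a:ℝ) + 1) * ((n:ℝ))⁻¹ + (j:ℝ))) atTop
        (𝓝 (((a:ℝ) + 1) * 0 + (j:ℝ))) := (hinv.const_mul _).add_const _
    have h3 := h1.div h2 (by rw [mul_zero, zero_add]; exact hj.ne')
    unfold kc
    rw [if_pos hlj]
    rw [mul_zero, mul_zero, zero_add, zero_add] at h3
    exact h3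
  · -- l = j
    subst hlj
    have hl : 0 < l := by omega
    have hk : kc l l = 0 := by unfold kc; simp
    rw [hk]
    apply squeeze_zero' (Eventually.of_forall fun n => cc_nonneg _ _) (g := fun n : ℕ => ((a:ℝ) + 1) * ((n:ℝ))⁻¹)
    · filter_upwards [eventually_ge_atTop 1] with n hn
      have hn0 : (0:ℝ) < n := by
        have : 0 < n := by omega
        positivity
      unfold cc
      split_ifs with hle
      · have hb : (0:ℝ) ≤ b := by positivity
        have ha : (0:ℝ) ≤ a := by positivity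
        have hl1 : (1:ℝ) ≤ l := by exact_mod_cast hl
        rw [← div_eq_mul_inv, Nat.cast_sub hle]
        push_cast
        apply div_le_div₀ (by positivity) (by linarith) hn0
        nlinarith
      · positivity
    · have := (tendsto_inv_atTop_nhds_zero_nat (𝕜 := ℝ)).const_mul ((a:ℝ) + 1)
      simpa using this
  · -- j < l
    have hk : kc j l = 0 := by unfold kc; rw [if_neg (by omega)]
    rw [hk]
    apply Tendsto.congr' _ tendsto_const_nhds
    filter_upwards [eventually_ge_atTop (a + 1)] with n hn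
    unfold cc
    rw [if_neg]
    have : n * (j + 1) ≤ n * l := Nat.mul_le_mul_left n hlj
    nlinarith

/-- `δ` -/
noncomputable def dl (j : ℕ) : ℂ := if j = 0 then 1 else 0

lemma dl_summable : Summable fun i => ‖dl i‖ := by
  apply summable_of_ne_finset_zero (s := {0})
  intro i hi
  unfold dl
  rw [if_neg (by simpa using hi), norm_zero]

lemma dl_hasSum (w : ℂ) : HasSum (fun i => dl i * w ^ i) 1 := by
  have h := hasSum_single (f := fun i => dl i * w ^ i) 0 (by
    intro i hi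
    unfold dl
    rw [if_neg hi, zero_mul])
  simpa [dl] using h

lemma u4_dl (g h t x : ℕ → ℂ) (ht : t 0 = 1) (hx : x 0 = 1) (i : I4) :
    u4 g h dl dl i = if i.2 = (0, 0) then u4 g h t x i else 0 := by
  obtain ⟨⟨a, b⟩, j, l⟩ := i
  unfold u4 dl
  simp only [Prod.mk.injEq]
  by_cases h1 : j = 0
  · by_cases h2 : l = 0
    · subst h1; subst h2; simp [ht, hx]
    · simp [h1, h2]
  · simp [h1]

end Pool.Agent.R253.KF
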