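import Pool.Agent.R253.KF.Four

set_option autoImplicit false

namespace Pool.Agent.R253.KF

open Complex Metric Set Filter Topology MeasureTheory ComplexConjugate
open Pool.Agent.R253.BE

lemma thc_summable (μ : ℝ) {η : ℝ} (h0 : 0 < η) (h1 : η < 1) : Summable fun j => ‖thc μ η j‖ := by
  have hn : ‖(η:ℂ)‖ < 1 := by rwa [Complex.norm_real, Real.norm_eq_abs, abs_of_pos h0]
  have s1 : Summable fun j : ℕ => ‖((j:ℂ) ^ 1 * (η:ℂ) ^ j : ℂ)‖ :=
    summable_norm_pow_mul_geometric_of_norm_lt_one 1 hn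
  have s2 := s1.mul_left |μ|
  have s3 : Summable fun i => ‖dl i‖ := dl_summable
  apply Summable.of_nonneg_of_le (fun i => norm_nonneg _) _ (s3.add s2)
  intro j
  unfold thc
  refine (norm_add_le _ _).trans ?_
  rw [norm_mul, Complex.norm_real, Real.norm_eq_abs, pow_one]
  exact le_rfl

lemma kap_term {μ η : ℝ} (x : ℕ → ℂ) (w : ℂ) (m l : ℕ) :
    (thc μ η (m + l) * conj (x l)) * ((kc (m + l) l : ℂ) * w ^ (m + l - l)) =
      ((μ:ℂ) * ((m:ℂ) * ((η:ℂ) * w) ^ m)) * (conj (x l) * (η:ℂ) ^ l) := by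
  rcases Nat.eq_zero_or_pos m with hm | hm
  · subst hm
    have : kc (0 + l) l = 0 := by unfold kc; simp
    rw [this]; simp
  · have h1 : m + l ≠ 0 := by omega
    unfold thc kc
    rw [if_neg h1, if_pos (by omega), Nat.add_sub_cancel]
    have h2 : ((m:ℂ) + l) ≠ 0 := by exact_mod_cast h1
    push_cast
    rw [zero_add, add_sub_cancel_right, pow_add, mul_pow]
    field_simp

lemma th_series {μ η : ℝ} (h0 : 0 < η) {w : ℂ} (hw : ‖w‖ < 1 / η) :
    HasSum (fun m : ℕ => (μ:ℂ) * ((m:ℂ) * ((η:ℂ) * w) ^ m)) (Th μ η w - 1) := by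
  have hn : ‖(η:ℂ) * w‖ < 1 := by
    have := norm_eta h0 (c := 1) norm_one hw
    rwa [one_mul] at this
  have h := (hasSum_coe_mul_geometric_of_norm_lt_one hn).mul_left (μ : ℂ)
  unfold Th
  rwa [add_sub_cancel_left]

lemma kap_sum {μ η : ℝ} (h0 : 0 < η) (h1 : η < 1) {x : ℕ → ℂ} {X : ℂ}
    (hx : HasSum (fun l => x l * (η:ℂ) ^ l) X) (hxs : Summable fun l => ‖x l‖) {w : ℂ} (hw : ‖w‖ ≤ 1) :
    HasSum (fun y : ℕ × ℕ => (thc μ η y.1 * conj (x y.2)) * ((kc y.1 y.2 : ℂ) * w ^ (y.1 - y.2)))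
      ((Th μ η w - 1) * conj X) := by
  have hn : ‖(η:ℂ)‖ < 1 := by rwa [Complex.norm_real, Real.norm_eq_abs, abs_of_pos h0]
  have hw' : ‖w‖ < 1 / η := by
    refine lt_of_le_of_lt hw ?_
    rw [lt_div_iff₀ h0]; linarith
  have hnw : ‖(η:ℂ) * w‖ < 1 := by
    rw [norm_mul]
    nlinarith [norm_nonneg w, norm_nonneg (η:ℂ)]
  set e : ℕ × ℕ → ℕ × ℕ := fun y => (y.1 + y.2, y.2) with he
  have hinj : Function.Injective e := by
    rintro ⟨a, b⟩ ⟨c, d⟩ h
    simp only [he, Prod.mk.injEq] at h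
    ext <;> simp <;> omega
  have s1 := th_series (μ := μ) h0 hw'
  have s2 : HasSum (fun l => conj (x l) * (η:ℂ) ^ l) (conj X) := by
    have := hs_conj hx
    rwa [Complex.conj_ofReal] at this
  have n1 : Summable fun m : ℕ => ‖(μ:ℂ) * ((m:ℂ) * ((η:ℂ) * w) ^ m)‖ := by
    have s1 : Summable fun j : ℕ => ‖((j:ℂ) ^ 1 * ((η:ℂ) * w) ^ j : ℂ)‖ :=
      summable_norm_pow_mul_geometric_of_norm_lt_one 1 hnw
    have := s1.mul_left ‖(μ:ℂ)‖
    simpa only [pow_one, ← norm_mul] using this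
  have n2 : Summable fun l : ℕ => ‖conj (x l) * (η:ℂ) ^ l‖ := sm_pow (sm_conj hxs) hn.le
  have s := hs_mul s1 s2 n1 n2
  rw [← hinj.hasSum_iff]
  · have e3 : ((fun y : ℕ × ℕ => (thc μ η y.1 * conj (x y.2)) * ((kc y.1 y.2 : ℂ) * w ^ (y.1 - y.2))) ∘ e)
        = fun y : ℕ × ℕ => ((μ:ℂ) * ((y.1:ℂ) * ((η:ℂ) * w) ^ y.1)) * (conj (x y.2) * (η:ℂ) ^ y.2) := by
      ext y
      exact kap_term x w y.1 y.2
    rw [e3]
    exact s
  · rintro ⟨j, l⟩ hy
    have : kc j l = 0 := by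
      unfold kc
      rw [if_neg]
      intro hlt
      apply hy
      refine ⟨(j - l, l), ?_⟩
      simp only [he, Prod.mk.injEq, and_true]
      omega
    simp only [this]
    simp

/-- size of the deviation on the circle -/
noncomputable def DD (n : ℕ) (i : I4) : ℝ :=
  if i.2 = (0, 0) then 0 else |cc (AA n i) (BB n i) - kc i.2.1 i.2.2|

/-- size of the deviation inside -/
noncomputable def EE (ρ : ℝ) (n : ℕ) (i : I4) : ℝ :=
  if i.2 = (0, 0) then 0 else cc (AA n i) (BB n i) * ρ ^ (AA n i - BB n i)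

lemma DD_nonneg (n : ℕ) (i : I4) : 0 ≤ DD n i := by
  unfold DD; split_ifs <;> positivity

lemma DD_le (n : ℕ) (i : I4) : DD n i ≤ 1 := by
  unfold DD
  split_ifs
  · exact zero_le_one
  · rw [abs_le]
    have h1 := cc_nonneg (AA n i) (BB n i)
    have h2 := cc_le_one (AA n i) (BB n i)
    have h3 := kc_nonneg i.2.1 i.2.2
    have h4 := kc_le_one i.2.1 i.2.2
    constructor <;> linarith

lemma DD_tendsto (i : I4) : Tendsto (fun n => DD n i) atTop (𝓝 0) := by
  obtain ⟨⟨a, b⟩, j, l⟩ := i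
  by_cases h : j = 0 ∧ l = 0
  · obtain ⟨rfl, rfl⟩ := h
    unfold DD
    simp
  · have h' : ((j, l) : ℕ × ℕ) ≠ (0, 0) := by
      intro e
      rw [Prod.mk.injEq] at e
      exact h e
    unfold DD
    simp only [if_neg h']
    have := (cc_tendsto a b h).sub_const (kc j l)
    rw [sub_self] at this
    have h2 := this.abs
    rw [abs_zero] at h2
    exact h2

section

variable {ρ : ℝ} (h0 : 0 ≤ ρ) (h1 : ρ < 1)

include h0 h1

lemma EE_nonneg (n : ℕ) (i : I4) : 0 ≤ EE ρ n i := by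
  unfold EE
  split_ifs
  · exact le_rfl
  · exact mul_nonneg (cc_nonneg _ _) (pow_nonneg h0 _)

lemma EE_le (n : ℕ) (i : I4) : EE ρ n i ≤ 1 := by
  unfold EE
  split_ifs
  · exact zero_le_one
  · exact mul_le_one₀ (cc_le_one _ _) (pow_nonneg h0 _) (pow_le_one₀ h0 h1.le)

lemma EE_tendsto (i : I4) : Tendsto (fun n => EE ρ n i) atTop (𝓝 0) := by
  obtain ⟨⟨a, b⟩, j, l⟩ := i
  by_cases h : j = 0 ∧ l = 0
  · obtain ⟨rfl, rfl⟩ := h
    unfold EE
    simp
  · have h' : ((j, l) : ℕ × ℕ) ≠ (0, 0) := by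
      intro e
      rw [Prod.mk.injEq] at e
      exact h e
    have hcc := cc_tendsto a b h
    unfold EE AA BB
    simp only [if_neg h']
    by_cases hlj : l < j
    · have hρ : Tendsto (fun n : ℕ => ρ ^ (a + n * j - (b + n * l))) atTop (𝓝 0) := by
        apply (tendsto_pow_atTop_nhds_zero_of_lt_one h0 h1).comp
        apply tendsto_atTop_mono (f := fun n : ℕ => n - b)
        · intro n
          have : n * (l + 1) ≤ n * j := Nat.mul_le_mul_left n hlj
          have h3 : n * (l + 1) = n * l + n := by ring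
          omega
        · exact tendsto_sub_atTop_nat b
      have := hcc.mul hρ
      rwa [mul_zero] at this
    · have hk : kc j l = 0 := by unfold kc; rw [if_neg hlj]
      rw [hk] at hcc
      apply squeeze_zero (g := fun n : ℕ => cc (a + n * j) (b + n * l)) _ _ hcc
      · intro n
        exact mul_nonneg (cc_nonneg _ _) (pow_nonneg h0 _)
      · intro n
        have := pow_le_one₀ (n := a + n * j - (b + n * l)) h0 h1.le
        nlinarith [cc_nonneg (a + n * j) (b + n * l)]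

end

lemma tannery {u : I4 → ℂ} (hu : Summable fun i => ‖u i‖) {D : ℕ → I4 → ℝ}
    (hD0 : ∀ n i, 0 ≤ D n i) (hD1 : ∀ n i, D n i ≤ 1) (hD : ∀ i, Tendsto (fun n => D n i) atTop (𝓝 0)) :
    Tendsto (fun n => ∑' i, ‖u i‖ * D n i) atTop (𝓝 0) := by
  have h := tendsto_tsum_of_dominated_convergence (f := fun n i => ‖u i‖ * D n i) (g := fun _ => (0:ℝ))
    (bound := fun i => ‖u i‖) (𝓕 := atTop) hu (fun i => by
      have := (hD i).const_mul ‖u i‖
      rwa [mul_zero] at this)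
    (Eventually.of_forall fun n i => by
      rw [Real.norm_eq_abs, abs_of_nonneg (mul_nonneg (norm_nonneg _) (hD0 n i))]
      have := hD1 n i
      nlinarith [norm_nonneg (u i)])
  simpa using h

lemma tannery_summable {u : I4 → ℂ} (hu : Summable fun i => ‖u i‖) {D : I4 → ℝ}
    (hD0 : ∀ i, 0 ≤ D i) (hD1 : ∀ i, D i ≤ 1) : Summable fun i => ‖u i‖ * D i := by
  apply Summable.of_nonneg_of_le (fun i => mul_nonneg (norm_nonneg _) (hD0 i)) _ hu
  intro i
  have := hD1 i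
  nlinarith [norm_nonneg (u i)]

end Pool.Agent.R253.KF
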