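import Pool.Agent.R253.KF.Four2

set_option autoImplicit false

namespace Pool.Agent.R253.KF

open Complex Metric Set Filter Topology MeasureTheory ComplexConjugate
open Pool.Agent.R253.BE

lemma inner_approx {g h t x : ℕ → ℂ} (hg : Summable fun i => ‖g i‖) (hh : Summable fun i => ‖h i‖)
    (ht : Summable fun i => ‖t i‖) (hx : Summable fun i => ‖x i‖) (t0 : t 0 = 1) (x0 : x 0 = 1)
    {ρ : ℝ} (h0 : 0 ≤ ρ) (h1 : ρ < 1) (n : ℕ) {z : ℂ} (hz : ‖z‖ ≤ ρ) :
    ‖prjF (u4 g h t x) (AA n) (BB n) z - prjF (u4 g h dl dl) (AA n) (BB n) z‖ ≤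
      ∑' i, ‖u4 g h t x i‖ * EE ρ n i := by
  have hz1 : ‖z‖ ≤ 1 := by linarith
  have hu := u4_summable hg hh ht hx
  have hu0 := u4_summable hg hh dl_summable dl_summable
  have s1 := prj_summable hu (AA n) (BB n) hz1
  have s2 := prj_summable hu0 (AA n) (BB n) hz1
  have s3 := tannery_summable hu (D := EE ρ n) (fun i => EE_nonneg h0 h1 n i) (fun i => EE_le h0 h1 n i)
  unfold prjF
  rw [← s1.tsum_sub s2]
  apply tsum_of_norm_bounded s3.hasSum
  intro i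
  rw [u4_dl g h t x t0 x0]
  unfold EE
  by_cases hi : i.2 = (0, 0)
  · simp [hi]
  · rw [if_neg hi, if_neg hi, zero_mul, sub_zero, norm_mul, norm_mul, norm_pow, Complex.norm_real,
      Real.norm_eq_abs, abs_of_nonneg (cc_nonneg _ _)]
    have h2 : ‖z‖ ^ (AA n i - BB n i) ≤ ρ ^ (AA n i - BB n i) := pow_le_pow_left₀ (norm_nonneg _) hz _
    apply mul_le_mul_of_nonneg_left _ (norm_nonneg _)
    exact mul_le_mul_of_nonneg_left h2 (cc_nonneg _ _)

lemma circle_term (n : ℕ) (i : I4) {z : ℂ} (hz : ‖z‖ = 1) (h : ¬ i.2 = (0, 0)) :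
    ‖(cc (AA n i) (BB n i) : ℂ) * z ^ (AA n i - BB n i) -
      (kc i.2.1 i.2.2 : ℂ) * (z ^ i.1.1 * conj z ^ i.1.2 * (z ^ n) ^ (i.2.1 - i.2.2))‖ ≤
      |cc (AA n i) (BB n i) - kc i.2.1 i.2.2| := by
  obtain ⟨⟨a, b⟩, j, l⟩ := i
  simp only [AA, BB]
  have hzz : z * conj z = 1 := by rw [Complex.mul_conj', hz]; norm_num
  by_cases hlj : l < j
  · by_cases hBA : b + n * l ≤ a + n * j
    · have e : z ^ a * conj z ^ b * (z ^ n) ^ (j - l) = z ^ (a + n * j - (b + n * l)) := by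
        have e1 : a + n * (j - l) = (a + n * j - (b + n * l)) + b := by
          have : n * (j - l) = n * j - n * l := Nat.mul_sub n j l
          have h3 : n * l ≤ n * j := Nat.mul_le_mul_left n hlj.le
          omega
        rw [← pow_mul]
        calc z ^ a * conj z ^ b * z ^ (n * (j - l)) = z ^ (a + n * (j - l)) * conj z ^ b := by
              rw [pow_add]; ring
          _ = z ^ (a + n * j - (b + n * l)) * (z * conj z) ^ b := by
              rw [e1, pow_add, mul_pow]; ring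
          _ = _ := by rw [hzz, one_pow, mul_one]
      rw [e, ← sub_mul, norm_mul, norm_pow, hz, one_pow, mul_one, ← Complex.ofReal_sub,
        Complex.norm_real, Real.norm_eq_abs]
    · have hc : cc (a + n * j) (b + n * l) = 0 := by unfold cc; rw [if_neg hBA]
      rw [hc]
      simp [hz]
  · have hk : kc j l = 0 := by unfold kc; rw [if_neg hlj]
    rw [hk]
    simp [hz]

lemma kap4 {μ η : ℝ} (h0 : 0 < η) (h1 : η < 1) {g h x : ℕ → ℂ} (hg : Summable fun i => ‖g i‖)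
    (hh : Summable fun i => ‖h i‖) (hx : Summable fun i => ‖x i‖) {X : ℂ}
    (sx : HasSum (fun l => x l * (η:ℂ) ^ l) X) (n : ℕ) {z G H : ℂ} (hz : ‖z‖ ≤ 1)
    (sg : HasSum (fun i => g i * z ^ i) G) (sh : HasSum (fun i => h i * z ^ i) H) :
    HasSum (fun i : I4 => u4 g h (thc μ η) x i *
      ((kc i.2.1 i.2.2 : ℂ) * (z ^ i.1.1 * conj z ^ i.1.2 * (z ^ n) ^ (i.2.1 - i.2.2))))
      ((G * conj H) * ((Th μ η (z ^ n) - 1) * conj X)) := by
  have hzn : ‖z ^ n‖ ≤ 1 := by rw [norm_pow]; exact pow_le_one₀ (norm_nonneg _) hz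
  have hzc : ‖conj z‖ ≤ 1 := by rwa [RCLike.norm_conj]
  have s1 := hs_mul sg (hs_conj sh) (sm_pow hg hz) (sm_pow (sm_conj hh) hzc)
  have m1 := sm_mul (sm_pow hg hz) (sm_pow (sm_conj hh) hzc)
  have s2 := kap_sum (μ := μ) h0 h1 sx hx hzn
  have m2 : Summable fun y : ℕ × ℕ =>
      ‖(thc μ η y.1 * conj (x y.2)) * ((kc y.1 y.2 : ℂ) * (z ^ n) ^ (y.1 - y.2))‖ := by
    have m3 : Summable fun y : ℕ × ℕ => ‖thc μ η y.1 * conj (x y.2)‖ :=
      sm_mul (g := fun i => conj (x i)) (thc_summable μ h0 h1) (sm_conj hx)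
    apply Summable.of_nonneg_of_le (fun i => norm_nonneg _) _ m3
    intro y
    rw [norm_mul]
    have h2 : ‖(kc y.1 y.2 : ℂ) * (z ^ n) ^ (y.1 - y.2)‖ ≤ 1 := by
      rw [norm_mul, norm_pow, Complex.norm_real, Real.norm_eq_abs, abs_of_nonneg (kc_nonneg _ _)]
      exact mul_le_one₀ (kc_le_one _ _) (by positivity) (pow_le_one₀ (norm_nonneg _) hzn)
    nlinarith [norm_nonneg (thc μ η y.1 * conj (x y.2))]
  have s := hs_mul s1 s2 m1 m2
  have e : (fun i : I4 => u4 g h (thc μ η) x i *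
      ((kc i.2.1 i.2.2 : ℂ) * (z ^ i.1.1 * conj z ^ i.1.2 * (z ^ n) ^ (i.2.1 - i.2.2)))) =
      fun i : I4 => (g i.1.1 * z ^ i.1.1 * (conj (h i.1.2) * conj z ^ i.1.2)) *
        ((thc μ η i.2.1 * conj (x i.2.2)) * ((kc i.2.1 i.2.2 : ℂ) * (z ^ n) ^ (i.2.1 - i.2.2))) := by
    ext i
    unfold u4
    ring
  rw [e]
  exact s

lemma circle_approx {μ η : ℝ} (h0 : 0 < η) (h1 : η < 1) {g h x : ℕ → ℂ} (hg : Summable fun i => ‖g i‖)
    (hh : Summable fun i => ‖h i‖) (hx : Summable fun i => ‖x i‖) (x0 : x 0 = 1) {X : ℂ}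
    (sx : HasSum (fun l => x l * (η:ℂ) ^ l) X) (n : ℕ) {z G H : ℂ} (hz : ‖z‖ = 1)
    (sg : HasSum (fun i => g i * z ^ i) G) (sh : HasSum (fun i => h i * z ^ i) H) :
    ‖prjF (u4 g h (thc μ η) x) (AA n) (BB n) z - prjF (u4 g h dl dl) (AA n) (BB n) z -
      (G * conj H) * ((Th μ η (z ^ n) - 1) * conj X)‖ ≤
      ∑' i, ‖u4 g h (thc μ η) x i‖ * DD n i := by
  have hz1 : ‖z‖ ≤ 1 := hz.le
  have t0 : thc μ η 0 = 1 := by simp [thc]
  have ht := thc_summable μ h0 h1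
  have hu := u4_summable hg hh ht hx
  have hu0 := u4_summable hg hh dl_summable dl_summable
  have s1 := prj_summable hu (AA n) (BB n) hz1
  have s2 := prj_summable hu0 (AA n) (BB n) hz1
  have s4 := kap4 (μ := μ) h0 h1 hg hh hx sx n hz1 sg sh
  have s3 := tannery_summable hu (D := DD n) (fun i => DD_nonneg n i) (fun i => DD_le n i)
  unfold prjF
  rw [← s4.tsum_eq, ← s1.tsum_sub s2, ← (s1.sub s2).tsum_sub s4.summable]
  apply tsum_of_norm_bounded s3.hasSum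
  intro i
  rw [u4_dl g h (thc μ η) x t0 x0]
  unfold DD
  by_cases hi : i.2 = (0, 0)
  · have hk : kc i.2.1 i.2.2 = 0 := by rw [hi]; unfold kc; simp
    rw [if_pos hi, if_pos hi, hk]
    simp
  · rw [if_neg hi, if_neg hi, zero_mul, sub_zero, ← mul_sub, norm_mul]
    exact mul_le_mul_of_nonneg_left (circle_term n i hz hi) (norm_nonneg _)

end Pool.Agent.R253.KF
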