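import Pool.Agent.R253.KF.Step3

set_option autoImplicit false

namespace Pool.Agent.R253.KF

open Complex Metric Set Filter Topology MeasureTheory ComplexConjugate
open Pool.Agent.R253.BE

lemma seq_limit {f : ℕ → ℂ → ℂ} {ρ : ℕ → ℝ} (hm : Monotone ρ) (h1 : ∀ j, ρ j < 1)
    (hl : Tendsto ρ atTop (𝓝 1)) (hd : ∀ j, DifferentiableOn ℂ (f j) (ball 0 1))
    (hs : ∀ j z, ‖z‖ ≤ ρ j → ‖f (j + 1) z - f j z‖ ≤ (1 / 2 : ℝ) ^ (j + 1)) :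
    ∃ F : ℂ → ℂ, DifferentiableOn ℂ F (ball 0 1) ∧
      ∀ j z, ‖z‖ ≤ ρ j → ‖F z - f j z‖ ≤ (1 / 2 : ℝ) ^ j := by
  have hstep : ∀ j z, ‖z‖ ≤ ρ j → ∀ m, dist (f (j + m) z) (f (j + m + 1) z) ≤
      (1 / 2 : ℝ) ^ j / 2 / 2 ^ m := by
    intro j z hz m
    rw [dist_comm, dist_eq_norm]
    refine (hs (j + m) z (hz.trans (hm (by omega)))).trans (le_of_eq ?_)
    rw [pow_succ, pow_add, show ((1:ℝ) / 2) ^ m = 1 / 2 ^ m from one_div_pow _ _]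
    ring
  have hex : ∀ z : ℂ, ‖z‖ < 1 → ∃ j, ‖z‖ ≤ ρ j := by
    intro z hz
    exact ((hl.eventually (lt_mem_nhds hz)).exists).imp fun j hj => hj.le
  have hF : ∀ z : ℂ, ∃ w : ℂ, ‖z‖ < 1 → Tendsto (fun j => f j z) atTop (𝓝 w) := by
    intro z
    by_cases hz : ‖z‖ < 1
    · obtain ⟨j, hj⟩ := hex z hz
      have hc : CauchySeq fun m => f (j + m) z := cauchySeq_of_le_geometric_two (hstep j z hj)
      obtain ⟨w, hw⟩ := cauchySeq_tendsto_of_complete hc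
      refine ⟨w, fun _ => ?_⟩
      have e : (fun m => f (j + m) z) = fun m => (fun i => f i z) (m + j) := by
        ext m; simp only [add_comm]
      rw [e] at hw
      exact (tendsto_add_atTop_iff_nat j).1 hw
    · exact ⟨0, fun h => absurd h hz⟩
  choose F hF using hF
  have hb : ∀ j z, ‖z‖ ≤ ρ j → ‖F z - f j z‖ ≤ (1 / 2 : ℝ) ^ j := by
    intro j z hz
    have hz1 : ‖z‖ < 1 := lt_of_le_of_lt hz (h1 j)
    have ht : Tendsto (fun m => f (j + m) z) atTop (𝓝 (F z)) := by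
      have e : (fun m => f (j + m) z) = fun m => (fun i => f i z) (m + j) := by
        ext m; simp only [add_comm]
      rw [e]
      exact (tendsto_add_atTop_iff_nat j).2 (hF z hz1)
    have h := dist_le_of_le_geometric_two_of_tendsto₀ (hstep j z hz) ht
    rw [dist_comm, dist_eq_norm, add_zero] at h
    exact h
  refine ⟨F, ?_, hb⟩
  have hlu : TendstoLocallyUniformlyOn f F atTop (ball 0 1) := by
    rw [Metric.tendstoLocallyUniformlyOn_iff]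
    intro ε hε x hx
    rw [mem_ball_zero_iff] at hx
    obtain ⟨i, hi⟩ := (hl.eventually (lt_mem_nhds hx)).exists
    refine ⟨ball 0 (ρ i), ?_, ?_⟩
    · apply mem_nhdsWithin_of_mem_nhds
      apply isOpen_ball.mem_nhds
      rwa [mem_ball_zero_iff]
    · have hp : Tendsto (fun n : ℕ => (1 / 2 : ℝ) ^ n) atTop (𝓝 0) :=
        tendsto_pow_atTop_nhds_zero_of_lt_one (by norm_num) (by norm_num)
      filter_upwards [hp.eventually (gt_mem_nhds hε), eventually_ge_atTop i] with n hn hin y hy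
      rw [dist_eq_norm]
      refine lt_of_le_of_lt (hb n y ?_) hn
      rw [mem_ball_zero_iff] at hy
      exact hy.le.trans (hm hin)
  exact hlu.differentiableOn (Eventually.of_forall hd) isOpen_ball

lemma St_init (ν : ℝ) : St ν (fun _ => 0) (fun _ => 1) := by
  refine ⟨⟨2, by norm_num, differentiableOn_const _⟩, differentiableOn_const _, continuousOn_const, ?_⟩
  intro f _ _
  simp [GH]

/-- the sequence of the construction -/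
theorem exists_seq {ν r q : ℝ} (hr : 1 ≤ r) (hq : 0 ≤ q) (hν : ν * r = r - 1 / 2) :
    ∃ (L k : ℕ → ℂ → ℂ) (ρ : ℕ → ℝ), L 0 = (fun _ => 0) ∧ k 0 = (fun _ => 1) ∧
      (∀ j, St ν (L j) (k j)) ∧ (∀ j, 0 ≤ ρ j) ∧ (∀ j, ρ j < 1) ∧
      (∀ j, ρ j < ρ (j + 1)) ∧ (∀ j, 1 - (1 / 2 : ℝ) ^ (j + 1) < ρ (j + 1)) ∧
      (∀ j z, ‖z‖ ≤ ρ j → ‖L (j + 1) z - L j z‖ ≤ (1 / 2 : ℝ) ^ (j + 1)) ∧
      (∀ j z, ‖z‖ ≤ ρ j → ‖k (j + 1) z - k j z‖ ≤ (1 / 2 : ℝ) ^ (j + 1)) ∧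
      (∀ j, ∫ z in ball (0:ℂ) 1, ‖exp (L (j + 1) z)‖ ^ (2:ℝ) ≤
        (∫ z in ball (0:ℂ) 1, ‖exp (L j z)‖ ^ (2:ℝ)) + (1 / 2 : ℝ) ^ (j + 1)) ∧
      (∀ j, ∫ z in ball (0:ℂ) 1, ‖k (j + 1) z‖ ^ q ≤
        (∫ z in ball (0:ℂ) 1, ‖k j z‖ ^ q) + (1 / 2 : ℝ) ^ (j + 1)) ∧
      (∀ j, ∫ θ in (0:ℝ)..(2 * Real.pi), ‖k (j + 1) (circleMap 0 1 θ)‖ ^ r ≤
        (∫ θ in (0:ℝ)..(2 * Real.pi), ‖k j (circleMap 0 1 θ)‖ ^ r) + (1 / 2 : ℝ) ^ (j + 1)) ∧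
      (∀ j : ℕ, (j : ℝ) ≤ ∫ θ in (0:ℝ)..(2 * Real.pi),
        ‖exp (L (j + 1) (circleMap 0 (ρ (j + 1)) θ))‖ ^ (1 / 2 : ℝ)) := by
  let X := {x : (ℂ → ℂ) × (ℂ → ℂ) × ℝ // St ν x.1 x.2.1 ∧ 0 ≤ x.2.2 ∧ x.2.2 < 1}
  have hstep : ∀ (j : ℕ) (x : X), ∃ y : X,
      x.1.2.2 < y.1.2.2 ∧ 1 - (1 / 2 : ℝ) ^ (j + 1) < y.1.2.2 ∧
      (∀ z, ‖z‖ ≤ x.1.2.2 → ‖y.1.1 z - x.1.1 z‖ ≤ (1 / 2 : ℝ) ^ (j + 1) ∧
        ‖y.1.2.1 z - x.1.2.1 z‖ ≤ (1 / 2 : ℝ) ^ (j + 1)) ∧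
      ∫ z in ball (0:ℂ) 1, ‖exp (y.1.1 z)‖ ^ (2:ℝ) ≤
        (∫ z in ball (0:ℂ) 1, ‖exp (x.1.1 z)‖ ^ (2:ℝ)) + (1 / 2 : ℝ) ^ (j + 1) ∧
      ∫ z in ball (0:ℂ) 1, ‖y.1.2.1 z‖ ^ q ≤
        (∫ z in ball (0:ℂ) 1, ‖x.1.2.1 z‖ ^ q) + (1 / 2 : ℝ) ^ (j + 1) ∧
      ∫ θ in (0:ℝ)..(2 * Real.pi), ‖y.1.2.1 (circleMap 0 1 θ)‖ ^ r ≤
        (∫ θ in (0:ℝ)..(2 * Real.pi), ‖x.1.2.1 (circleMap 0 1 θ)‖ ^ r) + (1 / 2 : ℝ) ^ (j + 1) ∧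
      (j : ℝ) ≤ ∫ θ in (0:ℝ)..(2 * Real.pi), ‖exp (y.1.1 (circleMap 0 y.1.2.2 θ))‖ ^ (1 / 2 : ℝ) := by
    rintro j ⟨⟨L, k, ρ⟩, hS, hρ0, hρ1⟩
    obtain ⟨L', k', ρ', h1, h2, h3, h4, h5, h6, h7, h8, h9⟩ :=
      step hr hq hν hS (show (0:ℝ) < (1 / 2) ^ (j + 1) by positivity) hρ0 hρ1 (j:ℝ)
    exact ⟨⟨⟨L', k', ρ'⟩, h1, hρ0.trans h2.le, h4⟩, h2, h3, h5, h6, h7, h8, h9⟩
  choose F hF using hstep
  let x0 : X := ⟨⟨fun _ => 0, fun _ => 1, 0⟩, St_init ν, le_rfl, zero_lt_one⟩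
  let s : ℕ → X := fun n => Nat.rec x0 (fun j x => F j x) n
  have hs : ∀ j, s (j + 1) = F j (s j) := fun j => rfl
  refine ⟨fun j => (s j).1.1, fun j => (s j).1.2.1, fun j => (s j).1.2.2, rfl, rfl,
    fun j => (s j).2.1, fun j => (s j).2.2.1, fun j => (s j).2.2.2, fun j => ?_, fun j => ?_,
    fun j z hz => ?_, fun j z hz => ?_, fun j => ?_, fun j => ?_, fun j => ?_, fun j => ?_⟩
  · simp only [hs]; exact (hF j (s j)).1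
  · simp only [hs]; exact (hF j (s j)).2.1
  · simp only [hs]; exact ((hF j (s j)).2.2.1 z hz).1
  · simp only [hs]; exact ((hF j (s j)).2.2.1 z hz).2
  · simp only [hs]; exact (hF j (s j)).2.2.2.1
  · simp only [hs]; exact (hF j (s j)).2.2.2.2.1
  · simp only [hs]; exact (hF j (s j)).2.2.2.2.2.1
  · simp only [hs]; exact (hF j (s j)).2.2.2.2.2.2

end Pool.Agent.R253.KF
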