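import Pool.Agent.R253.BE.Garsia

set_option autoImplicit false

namespace Pool.Agent.R253.KF

open Complex Metric Set Filter Topology MeasureTheory ComplexConjugate
open Pool.Agent.R253.BE

/-- the coefficient of the Bergman projection of `z^A conj z^B` -/
noncomputable def cc (A B : ℕ) : ℝ := if B ≤ A then (((A - B : ℕ) : ℝ) + 1) / ((A : ℝ) + 1) else 0

lemma cc_nonneg (A B : ℕ) : 0 ≤ cc A B := by
  unfold cc; split_ifs <;> positivity

lemma cc_le_one (A B : ℕ) : cc A B ≤ 1 := by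
  unfold cc
  split_ifs with h
  · rw [div_le_one (by positivity)]
    have : (((A - B : ℕ) : ℝ)) ≤ A := by exact_mod_cast Nat.sub_le A B
    linarith
  · exact zero_le_one

lemma circ_zero {f : ℂ → ℂ} (hf : DifferentiableOn ℂ f (ball 0 1)) {R : ℝ} (h0 : 0 < R) (h1 : R < 1)
    {N : ℕ} (hN : 0 < N) :
    ∫ θ in (0:ℝ)..(2 * Real.pi), (circleMap 0 R θ) ^ N * f (circleMap 0 R θ) = 0 := by
  have hρ : 1 < 1 / R := by rw [lt_div_iff₀ h0]; linarith
  have hg : DifferentiableOn ℂ (fun z => z ^ N * f z) (ball 0 1) :=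
    (by fun_prop : DifferentiableOn ℂ (fun z : ℂ => z ^ N) (ball 0 1)).mul hf
  have h := mv hρ (dil_diff'' hg h0)
  have e : dil (fun z => z ^ N * f z) R 0 = 0 := by
    unfold dil; rw [mul_zero]; simp [hN.ne']
  rw [e, mul_zero] at h
  simp only [dil_circle, mul_one] at h
  exact h

lemma mom_R {f : ℂ → ℂ} (hf : DifferentiableOn ℂ f (ball 0 1)) (A B : ℕ) {R : ℝ} (h0 : 0 < R)
    (h1 : R < 1) :
    ((A:ℂ) + 1) * ∫ z in ball (0:ℂ) R, z ^ A * conj (z ^ B * f z) =
      1 / 2 * (((R ^ 2 : ℝ) : ℂ) * ∫ θ in (0:ℝ)..(2 * Real.pi),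
        (circleMap 0 R θ) ^ A * conj ((circleMap 0 R θ) ^ B * f (circleMap 0 R θ))) := by
  have hg : DifferentiableOn ℂ (fun z => z ^ B * f z) (ball 0 1) :=
    (by fun_prop : DifferentiableOn ℂ (fun z : ℂ => z ^ B) (ball 0 1)).mul hf
  have h := pair_R (G := fun z : ℂ => z ^ A) (k := fun z => z ^ B * f z) (by fun_prop) hg h0 h1
  rw [← h, ← integral_const_mul]
  congr 1
  ext z
  have e : z * deriv (fun z : ℂ => z ^ A) z = A * z ^ A := by
    rw [deriv_pow_field]
    rcases Nat.eq_zero_or_pos A with hA | hA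
    · subst hA; simp
    · obtain ⟨m, rfl⟩ : ∃ m, A = m + 1 := ⟨A - 1, by omega⟩
      rw [Nat.add_sub_cancel, pow_succ]; ring
  rw [e]
  ring

/-- moments of a conjugate analytic function -/
theorem mom {f : ℂ → ℂ} (hf : DifferentiableOn ℂ f (ball 0 1)) (hi : IntegrableOn f (ball 0 1))
    (A B : ℕ) : ∫ z in ball (0:ℂ) 1, z ^ A * conj z ^ B * conj (f z) =
      (cc A B : ℂ) * ∫ z in ball (0:ℂ) 1, z ^ (A - B) * conj (f z) := by
  have hbd : ∀ a b : ℕ, IntegrableOn (fun z => z ^ a * conj (z ^ b * f z)) (ball (0:ℂ) 1) := by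
    intro a b
    apply Integrable.mono' (g := fun z => ‖f z‖) hi.norm
    · apply AEStronglyMeasurable.mul
      · exact (by fun_prop : Continuous fun z : ℂ => z ^ a).aestronglyMeasurable
      · apply Complex.continuous_conj.comp_aestronglyMeasurable
        exact ((by fun_prop : Continuous fun z : ℂ => z ^ b).aestronglyMeasurable).mul
          hi.aestronglyMeasurable
    · filter_upwards [ae_restrict_mem measurableSet_ball] with z hz
      rw [mem_ball_zero_iff] at hz
      rw [norm_mul, RCLike.norm_conj, norm_mul, norm_pow, norm_pow]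
      have h2 : ‖z‖ ^ a ≤ 1 := pow_le_one₀ (norm_nonneg _) hz.le
      have h3 : ‖z‖ ^ b ≤ 1 := pow_le_one₀ (norm_nonneg _) hz.le
      have h4 : ‖z‖ ^ a * (‖z‖ ^ b * ‖f z‖) ≤ 1 * (1 * ‖f z‖) := by gcongr
      linarith
  have e1 : ∀ z : ℂ, z ^ A * conj z ^ B * conj (f z) = z ^ A * conj (z ^ B * f z) := by
    intro z; rw [map_mul, map_pow]; ring
  have e2 : ∀ z : ℂ, z ^ (A - B) * conj (f z) = z ^ (A - B) * conj (z ^ 0 * f z) := by
    intro z; rw [pow_zero, one_mul]
  simp only [e1]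
  rw [show (∫ z in ball (0:ℂ) 1, z ^ (A - B) * conj (f z)) =
    ∫ z in ball (0:ℂ) 1, z ^ (A - B) * conj (z ^ 0 * f z) from by simp only [e2]]
  have l1 := lim_ball (hbd A B)
  have l2 := lim_ball (hbd (A - B) 0)
  have hA1 : ((A:ℂ) + 1) ≠ 0 := by exact_mod_cast Nat.succ_ne_zero A
  unfold cc
  split_ifs with hBA
  · -- `B ≤ A`
    have key : ∀ n, ∫ z in ball (0:ℂ) (Rn n), z ^ A * conj (z ^ B * f z) =
        ((Rn n ^ (2 * B) : ℝ) : ℂ) * ((((((A - B : ℕ) : ℝ) + 1) / ((A : ℝ) + 1) : ℝ) : ℂ) *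
          ∫ z in ball (0:ℂ) (Rn n), z ^ (A - B) * conj (z ^ 0 * f z)) := by
      intro n
      have h1 := mom_R hf A B (Rn_pos n) (Rn_lt n)
      have h2 := mom_R hf (A - B) 0 (Rn_pos n) (Rn_lt n)
      have e3 : ∫ θ in (0:ℝ)..(2 * Real.pi), (circleMap 0 (Rn n) θ) ^ A *
          conj ((circleMap 0 (Rn n) θ) ^ B * f (circleMap 0 (Rn n) θ)) =
          ((Rn n ^ (2 * B) : ℝ) : ℂ) * ∫ θ in (0:ℝ)..(2 * Real.pi), (circleMap 0 (Rn n) θ) ^ (A - B) *
          conj ((circleMap 0 (Rn n) θ) ^ 0 * f (circleMap 0 (Rn n) θ)) := by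
        rw [← intervalIntegral.integral_const_mul]
        congr 1
        ext θ
        set w := circleMap 0 (Rn n) θ with hw
        have hn : w * conj w = ((Rn n ^ 2 : ℝ) : ℂ) := by
          rw [Complex.mul_conj', hw, norm_circleMap_zero, abs_of_pos (Rn_pos n)]; push_cast; rfl
        rw [pow_zero, one_mul, map_mul, map_pow, pow_mul, Complex.ofReal_pow, ← hn, mul_pow]
        have : w ^ A = w ^ (A - B) * w ^ B := by rw [← pow_add]; congr 1; omega
        rw [this]
        ring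
      rw [e3] at h1
      have h3 : ((A:ℂ) + 1) * ∫ z in ball (0:ℂ) (Rn n), z ^ A * conj (z ^ B * f z) =
          ((Rn n ^ (2 * B) : ℝ) : ℂ) * ((((A - B : ℕ):ℂ) + 1) *
            ∫ z in ball (0:ℂ) (Rn n), z ^ (A - B) * conj (z ^ 0 * f z)) := by
        rw [h1, h2]; ring
      apply mul_left_cancel₀ hA1
      rw [h3]
      push_cast
      field_simp
    have hlim : Tendsto (fun n => ((Rn n ^ (2 * B) : ℝ) : ℂ) *
        ((((((A - B : ℕ) : ℝ) + 1) / ((A : ℝ) + 1) : ℝ) : ℂ) *
          ∫ z in ball (0:ℂ) (Rn n), z ^ (A - B) * conj (z ^ 0 * f z))) atTop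
        (𝓝 (((1:ℝ):ℂ) * ((((((A - B : ℕ) : ℝ) + 1) / ((A : ℝ) + 1) : ℝ) : ℂ) *
          ∫ z in ball (0:ℂ) 1, z ^ (A - B) * conj (z ^ 0 * f z)))) := by
      apply Tendsto.mul _ (l2.const_mul _)
      have h3 := Rn_lim.pow (2 * B)
      rw [one_pow] at h3
      exact (Complex.continuous_ofReal.tendsto 1).comp h3
    rw [Complex.ofReal_one, one_mul] at hlim
    exact tendsto_nhds_unique l1 (hlim.congr fun n => (key n).symm)
  · -- `A < B`
    have hAB : A < B := not_le.1 hBA
    rw [Complex.ofReal_zero, zero_mul]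
    apply tendsto_nhds_unique l1
    have key : ∀ n, ∫ z in ball (0:ℂ) (Rn n), z ^ A * conj (z ^ B * f z) = 0 := by
      intro n
      have h1 := mom_R hf A B (Rn_pos n) (Rn_lt n)
      have e3 : ∫ θ in (0:ℝ)..(2 * Real.pi), (circleMap 0 (Rn n) θ) ^ A *
          conj ((circleMap 0 (Rn n) θ) ^ B * f (circleMap 0 (Rn n) θ)) =
          ((Rn n ^ (2 * A) : ℝ) : ℂ) * ∫ θ in (0:ℝ)..(2 * Real.pi),
          conj ((circleMap 0 (Rn n) θ) ^ (B - A) * f (circleMap 0 (Rn n) θ)) := by
        rw [← intervalIntegral.integral_const_mul]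
        congr 1
        ext θ
        set w := circleMap 0 (Rn n) θ with hw
        have hn : w * conj w = ((Rn n ^ 2 : ℝ) : ℂ) := by
          rw [Complex.mul_conj', hw, norm_circleMap_zero, abs_of_pos (Rn_pos n)]; push_cast; rfl
        rw [map_mul, map_pow, map_mul, map_pow, pow_mul, Complex.ofReal_pow, ← hn, mul_pow]
        have : conj w ^ B = conj w ^ (B - A) * conj w ^ A := by rw [← pow_add]; congr 1; omega
        rw [this]
        ring
      have e4 : ∫ θ in (0:ℝ)..(2 * Real.pi),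
          conj ((circleMap 0 (Rn n) θ) ^ (B - A) * f (circleMap 0 (Rn n) θ)) = 0 := by
        rw [intervalIntegral.integral_of_le (by positivity), integral_conj,
          ← intervalIntegral.integral_of_le (by positivity),
          circ_zero hf (Rn_pos n) (Rn_lt n) (by omega), map_zero]
      rw [e3, e4, mul_zero, mul_zero, mul_zero] at h1
      exact (mul_eq_zero.1 h1).resolve_left hA1
    simp only [key]
    exact tendsto_const_nhds

end Pool.Agent.R253.KF
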