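import Pool.Agent.R253.KF.Four3

set_option autoImplicit false

namespace Pool.Agent.R253.KF

open Complex Metric Set Filter Topology MeasureTheory ComplexConjugate
open Pool.Agent.R253.BE

/-- `GH z = exp (L z) * conj (exp (-ν L z))`; this is `|F|^{p-2} F` for `F = exp ((2/p) L)` -/
noncomputable def GH (ν : ℝ) (L : ℂ → ℂ) (z : ℂ) : ℂ := exp (L z) * conj (exp (-(ν:ℂ) * L z))

/-- the states of the construction -/
structure St (ν : ℝ) (L k : ℂ → ℂ) : Prop where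
  hL : ∃ R : ℝ, 1 < R ∧ DifferentiableOn ℂ L (ball 0 R)
  kd : DifferentiableOn ℂ k (ball 0 1)
  kc : ContinuousOn k (closedBall 0 1)
  pr : ∀ f : ℂ → ℂ, DifferentiableOn ℂ f (ball 0 1) → IntegrableOn f (ball 0 1) →
    ∫ z in ball (0:ℂ) 1, k z * conj (f z) = ∫ z in ball (0:ℂ) 1, GH ν L z * conj (f z)

lemma exp_diff {R : ℝ} {L : ℂ → ℂ} (hL : DifferentiableOn ℂ L (ball 0 R)) (c : ℂ) :
    DifferentiableOn ℂ (fun z => exp (c * L z)) (ball 0 R) :=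
  (hL.const_mul c).cexp

lemma prj_bound {u : I4 → ℂ} (hu : Summable fun i => ‖u i‖) (A B : I4 → ℕ) {z : ℂ} (hz : ‖z‖ ≤ 1) :
    ‖prjF u A B z‖ ≤ ∑' i, ‖u i‖ :=
  tsum_of_norm_bounded hu.hasSum fun i => prj_term u A B i hz

lemma newL_diff {R : ℝ} (hR : 1 < R) {L : ℂ → ℂ} (hL : DifferentiableOn ℂ L (ball 0 R)) {ζ : ℂ}
    (hζ : ‖ζ‖ = 1) {η : ℝ} (h0 : 0 < η) (h1 : η < 1) {n : ℕ} (hn : 0 < n) :
    ∃ R' : ℝ, 1 < R' ∧ DifferentiableOn ℂ (fun z => L z + Lam ζ η (z ^ n)) (ball 0 R') := by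
  have hη : 1 < 1 / η := by rw [lt_div_iff₀ h0]; linarith
  have hn' : (0:ℝ) < n := by exact_mod_cast hn
  refine ⟨min R ((1 / η) ^ (1 / (n:ℝ))), ?_, ?_⟩
  · rw [lt_min_iff]
    exact ⟨hR, Real.one_lt_rpow hη (by positivity)⟩
  · apply DifferentiableOn.add
    · exact hL.mono (ball_subset_ball (min_le_left _ _))
    · apply (Lam_diff hζ h0).comp (by fun_prop)
      intro z hz
      rw [mem_ball_zero_iff] at hz ⊢
      have hz2 : ‖z‖ < (1 / η) ^ (1 / (n:ℝ)) := lt_of_lt_of_le hz (min_le_right _ _)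
      rw [norm_pow]
      have h3 : ‖z‖ ^ n < ((1 / η) ^ (1 / (n:ℝ))) ^ n := pow_lt_pow_left₀ hz2 (norm_nonneg _) hn.ne'
      rw [← Real.rpow_natCast ((1 / η) ^ (1 / (n:ℝ))) n, ← Real.rpow_mul (by positivity),
        one_div_mul_cancel hn'.ne', Real.rpow_one] at h3
      exact h3

/-- one step of the construction, before the parameters are chosen -/
theorem step_pre {ν : ℝ} {L k : ℂ → ℂ} (hS : St ν L k) {ζ : ℂ} (hζ : ‖ζ‖ = 1) {η : ℝ}
    (h0 : 0 < η) (h1 : η < 1) :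
    ∃ (kn : ℕ → ℂ → ℂ) (U : ℝ) (d : ℕ → ℝ),
      (∀ n, 0 < n → St ν (fun z => L z + Lam ζ η (z ^ n)) (kn n)) ∧
      (∀ n z, ‖z‖ ≤ 1 → ‖kn n z‖ ≤ U) ∧ Tendsto d atTop (𝓝 0) ∧
      (∀ n z, 0 < n → ‖z‖ = 1 → ‖kn n z - k z -
        GH ν L z * ((Th (2 - 2 * ζ.re) η (z ^ n) - 1) * conj (exp (-(ν:ℂ) * Lam ζ η η)))‖ ≤ d n) ∧
      ∀ ρ : ℝ, 0 ≤ ρ → ρ < 1 → ∃ e : ℕ → ℝ, Tendsto e atTop (𝓝 0) ∧
        ∀ n z, 0 < n → ‖z‖ ≤ ρ → ‖kn n z - k z‖ ≤ e n := by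
  obtain ⟨R, hR, hL⟩ := hS.hL
  have hη : 1 < 1 / η := by rw [lt_div_iff₀ h0]; linarith
  have hηn : ‖(η:ℂ)‖ ≤ 1 := by rw [Complex.norm_real, Real.norm_eq_abs, abs_of_pos h0]; exact h1.le
  obtain ⟨g, hg, sg⟩ := exists_coeff hR hL.cexp
  obtain ⟨h, hh, sh⟩ := exists_coeff hR (exp_diff hL (-(ν:ℂ)))
  obtain ⟨x, hx, sx⟩ := exists_coeff hη (exp_diff (Lam_diff hζ h0) (-(ν:ℂ)))
  set μ : ℝ := 2 - 2 * ζ.re with hμ
  have x0 : x 0 = 1 := by
    have h := sx 0 (by simp)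
    rw [Lam_zero, mul_zero, Complex.exp_zero] at h
    have h2 := hasSum_single (f := fun n => x n * (0:ℂ) ^ n) 0 (by
      intro i hi
      simp [hi])
    have h3 := h.unique h2
    simpa using h3.symm
  have ht := thc_summable μ h0 h1
  have t0 : thc μ η 0 = 1 := by simp [thc]
  have hu := u4_summable hg hh ht hx
  have hu0 := u4_summable hg hh dl_summable dl_summable
  set u := u4 g h (thc μ η) x with hud
  have hw : ∀ w : ℂ, ‖w‖ ≤ 1 → ‖w‖ < 1 / η := fun w hw => lt_of_le_of_lt hw hη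
  -- the old kernel
  have hk : ∀ n, EqOn k (prjF (u4 g h dl dl) (AA n) (BB n)) (closedBall 0 1) := by
    intro n
    apply uniq hS.kd hS.kc (prj_diff hu0 _ _) (prj_cont hu0 _ _)
    intro f hf hi
    rw [hS.pr f hf hi, fam_pair hu0 _ _ hf hi]
    apply setIntegral_congr_fun measurableSet_ball
    intro z hz
    have hz1 : ‖z‖ ≤ 1 := (mem_ball_zero_iff.1 hz).le
    have := psi4 hg hh dl_summable dl_summable hz1 n (sg z hz1) (sh z hz1) (dl_hasSum _) (dl_hasSum _)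
    simp only [this, GH]
    simp
  refine ⟨fun n => prjF u (AA n) (BB n), ∑' i, ‖u i‖, fun n => ∑' i, ‖u i‖ * DD n i, ?_, ?_, ?_, ?_, ?_⟩
  · intro n hn
    refine ⟨newL_diff hR hL hζ h0 h1 hn, prj_diff hu _ _, prj_cont hu _ _, ?_⟩
    intro f hf hi
    rw [fam_pair hu _ _ hf hi]
    apply setIntegral_congr_fun measurableSet_ball
    intro z hz
    have hz1 : ‖z‖ ≤ 1 := (mem_ball_zero_iff.1 hz).le
    have hzn : ‖z ^ n‖ ≤ 1 := by rw [norm_pow]; exact pow_le_one₀ (norm_nonneg _) hz1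
    have := psi4 hg hh ht hx hz1 n (sg z hz1) (sh z hz1) (thc_hasSum μ h0 (hw _ hzn)) (sx _ hzn)
    simp only [hud, this, GH]
    rw [Complex.exp_add, exp_Lam hζ h0 (hw _ hzn), mul_add, Complex.exp_add, map_mul]
    ring
  · intro n z hz
    exact prj_bound hu _ _ hz
  · exact tannery hu (D := DD) DD_nonneg DD_le DD_tendsto
  · intro n z _ hz
    rw [hk n (mem_closedBall_zero_iff.2 hz.le)]
    exact circle_approx h0 h1 hg hh hx x0 (sx _ hηn) n hz (sg z hz.le) (sh z hz.le)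
  · intro ρ hρ0 hρ1
    refine ⟨fun n => ∑' i, ‖u i‖ * EE ρ n i, ?_, ?_⟩
    · exact tannery hu (D := EE ρ) (fun n i => EE_nonneg hρ0 hρ1 n i) (fun n i => EE_le hρ0 hρ1 n i)
        (fun i => EE_tendsto hρ0 hρ1 i)
    · intro n z _ hz
      rw [hk n (mem_closedBall_zero_iff.2 (by linarith))]
      exact inner_approx hg hh ht hx t0 x0 hρ0 hρ1 n hz

end Pool.Agent.R253.KF
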