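import Pool.Agent.R253.KF.Step

set_option autoImplicit false

namespace Pool.Agent.R253.KF

open Complex Metric Set Filter Topology MeasureTheory ComplexConjugate
open Pool.Agent.R253.BE

lemma rpow_split {r s x y : ℝ} (hr : 1 ≤ r) (h0 : 0 < s) (h1 : s < 1) (hx : 0 ≤ x) (hy : 0 ≤ y) :
    (x + y) ^ r ≤ (1 - s) ^ (1 - r) * x ^ r + s ^ (1 - r) * y ^ r := by
  have h1s : 0 < 1 - s := by linarith
  have h := (convexOn_rpow hr).2 (x := x / (1 - s)) (mem_Ici.2 (by positivity)) (y := y / s)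
    (mem_Ici.2 (by positivity)) h1s.le h0.le (by ring)
  simp only [smul_eq_mul] at h
  have e1 : (1 - s) * (x / (1 - s)) + s * (y / s) = x + y := by field_simp
  rw [e1, Real.div_rpow hx h1s.le, Real.div_rpow hy h0.le] at h
  have key : ∀ t : ℝ, 0 < t → ∀ u : ℝ, t * (u / t ^ r) = t ^ (1 - r) * u := by
    intro t ht u
    rw [Real.rpow_sub ht, Real.rpow_one]
    ring
  rw [key _ h1s, key _ h0] at h
  exact h

lemma choose_s {r I ε : ℝ} (hε : 0 < ε) :
    ∃ s : ℝ, 0 < s ∧ s < 1 ∧ (1 - s) ^ (1 - r) * I ≤ I + ε := by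
  have hc : Tendsto (fun s : ℝ => (1 - s) ^ (1 - r) * I) (𝓝 0) (𝓝 ((1 - 0) ^ (1 - r) * I)) := by
    apply Tendsto.mul_const
    have : ContinuousAt (fun s : ℝ => (1 - s) ^ (1 - r)) 0 := by
      apply ContinuousAt.rpow_const (by fun_prop)
      left; norm_num
    exact this
  rw [sub_zero, Real.one_rpow, one_mul] at hc
  have h1 : ∀ᶠ s in 𝓝 (0:ℝ), (1 - s) ^ (1 - r) * I < I + ε := hc.eventually (gt_mem_nhds (by linarith))
  have h2 : ∀ᶠ s in 𝓝[>] (0:ℝ), (1 - s) ^ (1 - r) * I < I + ε := h1.filter_mono nhdsWithin_le_nhds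
  have h3 : ∀ᶠ s in 𝓝[>] (0:ℝ), s ∈ Ioo (0:ℝ) 1 := Ioo_mem_nhdsGT one_pos
  obtain ⟨s, hs1, hs2⟩ := (h2.and h3).exists
  exact ⟨s, hs2.1, hs2.2, hs1.le⟩

/-- continuity of power integrals over the disc -/
lemma ball_lim {f : ℕ → ℂ → ℂ} {g : ℂ → ℂ} {U q : ℝ} (hq : 0 ≤ q)
    (hf : ∀ᶠ n in atTop, ContinuousOn (f n) (ball 0 1)) (hU : ∀ᶠ n in atTop, ∀ z ∈ ball (0:ℂ) 1, ‖f n z‖ ≤ U)
    (hlim : ∀ z ∈ ball (0:ℂ) 1, Tendsto (fun n => f n z) atTop (𝓝 (g z))) :
    Tendsto (fun n => ∫ z in ball (0:ℂ) 1, ‖f n z‖ ^ q) atTop (𝓝 (∫ z in ball (0:ℂ) 1, ‖g z‖ ^ q)) := by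
  apply tendsto_integral_filter_of_dominated_convergence (fun _ => |U| ^ q)
  · filter_upwards [hf] with n hn
    exact (hn.norm.rpow_const fun z _ => Or.inr hq).aestronglyMeasurable measurableSet_ball
  · filter_upwards [hU] with n hn
    filter_upwards [ae_restrict_mem measurableSet_ball] with z hz
    rw [Real.norm_eq_abs, abs_of_nonneg (by positivity)]
    exact Real.rpow_le_rpow (norm_nonneg _) ((hn z hz).trans (le_abs_self U)) hq
  · haveI : IsFiniteMeasure (volume.restrict (ball (0:ℂ) 1)) := by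
      constructor
      rw [Measure.restrict_apply_univ]
      exact measure_ball_lt_top
    exact integrable_const _
  · filter_upwards [ae_restrict_mem measurableSet_ball] with z hz
    exact ((hlim z hz).norm).rpow_const (Or.inr hq)

/-- continuity of circle means up to the boundary -/
lemma lim_radius {V : ℂ → ℝ} (hV : ContinuousOn V (closedBall 0 1)) :
    Tendsto (fun ρ : ℝ => ∫ θ in (0:ℝ)..(2 * Real.pi), V (circleMap 0 ρ θ)) (𝓝[<] 1)
      (𝓝 (∫ θ in (0:ℝ)..(2 * Real.pi), V (circleMap 0 1 θ))) := by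
  obtain ⟨C, hC⟩ := (isCompact_closedBall (0:ℂ) 1).exists_bound_of_continuousOn hV
  have hmem : ∀ᶠ ρ in 𝓝[<] (1:ℝ), ρ ∈ Ioo (0:ℝ) 1 := Ioo_mem_nhdsLT one_pos
  have hcb : ∀ ρ ∈ Ioo (0:ℝ) 1, ∀ θ, circleMap 0 ρ θ ∈ closedBall (0:ℂ) 1 := by
    intro ρ hρ θ
    rw [mem_closedBall_zero_iff, norm_circleMap_zero, abs_of_pos hρ.1]
    exact hρ.2.le
  apply intervalIntegral.tendsto_integral_filter_of_dominated_convergence (fun _ => C)
  · filter_upwards [hmem] with ρ hρ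
    exact (hV.comp_continuous (continuous_circleMap 0 ρ) (hcb ρ hρ)).aestronglyMeasurable
  · filter_upwards [hmem] with ρ hρ
    exact Eventually.of_forall fun θ _ => hC _ (hcb ρ hρ θ)
  · exact intervalIntegrable_const
  · refine Eventually.of_forall fun θ _ => ?_
    have h1 : Tendsto (fun ρ : ℝ => circleMap 0 ρ θ) (𝓝[<] 1) (𝓝[closedBall 0 1] (circleMap 0 1 θ)) := by
      apply tendsto_nhdsWithin_iff.2 ⟨_, _⟩
      · have : Continuous fun ρ : ℝ => circleMap 0 ρ θ := by unfold circleMap; fun_prop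
        exact (this.tendsto 1).mono_left nhdsWithin_le_nhds
      · filter_upwards [hmem] with ρ hρ
        exact hcb ρ hρ θ
    have h2 : ContinuousWithinAt V (closedBall 0 1) (circleMap 0 1 θ) := hV _ (by simp)
    exact h2.tendsto.comp h1

/-- the estimate on the circle -/
lemma circ_part {kn k g : ℂ → ℂ} {κ : ℂ → ℂ} (hkn : ContinuousOn kn (closedBall 0 1))
    (hk : ContinuousOn k (closedBall 0 1)) (hκ : ContinuousOn κ (closedBall 0 1)) {M d : ℝ}
    (hM : ∀ z, ‖z‖ = 1 → ‖g z‖ ≤ M) (hM0 : 0 ≤ M) {n : ℕ} (hn : 0 < n)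
    (hd : ∀ z, ‖z‖ = 1 → ‖kn z - k z - g z * κ (z ^ n)‖ ≤ d) {r s : ℝ} (hr : 1 ≤ r) (h0 : 0 < s)
    (h1 : s < 1) :
    ∫ θ in (0:ℝ)..(2 * Real.pi), ‖kn (circleMap 0 1 θ)‖ ^ r ≤
      (1 - s) ^ (1 - r) * (∫ θ in (0:ℝ)..(2 * Real.pi), ‖k (circleMap 0 1 θ)‖ ^ r) +
      s ^ (1 - r) * ((1 / 2) ^ (1 - r) * (M ^ r * (∫ θ in (0:ℝ)..(2 * Real.pi), ‖κ (circleMap 0 1 θ)‖ ^ r)
        + 2 * Real.pi * |d| ^ r)) := by
  have hr0 : 0 ≤ r := by linarith
  have cc1 : ∀ f : ℂ → ℂ, ContinuousOn f (closedBall 0 1) → Continuous fun θ : ℝ => ‖f (circleMap 0 1 θ)‖ ^ r := by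
    intro f hf
    apply Continuous.rpow_const _ fun θ => Or.inr hr0
    apply Continuous.norm
    apply hf.comp_continuous (continuous_circleMap 0 1)
    intro θ; simp
  have cκn : Continuous fun θ : ℝ => ‖κ ((circleMap 0 1 θ) ^ n)‖ ^ r := by
    apply Continuous.rpow_const _ fun θ => Or.inr hr0
    apply Continuous.norm
    apply hκ.comp_continuous ((continuous_circleMap 0 1).pow n)
    intro θ; simp
  have hpt : ∀ θ : ℝ, ‖kn (circleMap 0 1 θ)‖ ^ r ≤ (1 - s) ^ (1 - r) * ‖k (circleMap 0 1 θ)‖ ^ r +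
      s ^ (1 - r) * ((1 / 2) ^ (1 - r) * (M ^ r * ‖κ ((circleMap 0 1 θ) ^ n)‖ ^ r + |d| ^ r)) := by
    intro θ
    set z := circleMap 0 1 θ with hz
    have hz1 : ‖z‖ = 1 := by simp [hz]
    have e1 : ‖kn z‖ ≤ ‖k z‖ + (M * ‖κ (z ^ n)‖ + |d|) := by
      have e2 : kn z = k z + (g z * κ (z ^ n) + (kn z - k z - g z * κ (z ^ n))) := by ring
      have e3 : ‖kn z‖ ≤ ‖k z‖ + (‖g z * κ (z ^ n)‖ + ‖kn z - k z - g z * κ (z ^ n)‖) := by
        conv_lhs => rw [e2]
        exact (norm_add_le _ _).trans (by gcongr; exact norm_add_le _ _)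
      have e4 := hd z hz1
      have e5 : ‖g z * κ (z ^ n)‖ ≤ M * ‖κ (z ^ n)‖ := by
        rw [norm_mul]; exact mul_le_mul_of_nonneg_right (hM z hz1) (norm_nonneg _)
      have e6 := le_abs_self d
      linarith
    have e7 := Real.rpow_le_rpow (norm_nonneg _) e1 hr0
    refine e7.trans ?_
    refine (rpow_split hr h0 h1 (norm_nonneg _) (by positivity)).trans ?_
    gcongr
    refine (rpow_split hr (s := 1 / 2) (by norm_num) (by norm_num) (by positivity) (abs_nonneg d)).trans ?_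
    rw [Real.mul_rpow hM0 (norm_nonneg _), show (1:ℝ) - 1 / 2 = 1 / 2 by norm_num, ← mul_add]
  have h3 : ∫ θ in (0:ℝ)..(2 * Real.pi), ‖kn (circleMap 0 1 θ)‖ ^ r ≤
      ∫ θ in (0:ℝ)..(2 * Real.pi), ((1 - s) ^ (1 - r) * ‖k (circleMap 0 1 θ)‖ ^ r +
      s ^ (1 - r) * ((1 / 2) ^ (1 - r) * (M ^ r * ‖κ ((circleMap 0 1 θ) ^ n)‖ ^ r + |d| ^ r))) := by
    apply intervalIntegral.integral_mono_on (by positivity) ((cc1 kn hkn).intervalIntegrable _ _) _
      fun θ _ => hpt θ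
    apply Continuous.intervalIntegrable
    exact ((cc1 k hk).const_mul _).add (((((cκn.const_mul _).add continuous_const)).const_mul _).const_mul _)
  refine h3.trans (le_of_eq ?_)
  have i1 : IntervalIntegrable (fun θ : ℝ => (1 - s) ^ (1 - r) * ‖k (circleMap 0 1 θ)‖ ^ r) volume 0
      (2 * Real.pi) := ((cc1 k hk).const_mul _).intervalIntegrable _ _
  have i2 : IntervalIntegrable (fun θ : ℝ => s ^ (1 - r) * ((1 / 2) ^ (1 - r) *
      (M ^ r * ‖κ ((circleMap 0 1 θ) ^ n)‖ ^ r + |d| ^ r))) volume 0 (2 * Real.pi) :=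
    (((((cκn.const_mul _).add continuous_const)).const_mul _).const_mul _).intervalIntegrable _ _
  have i3 : IntervalIntegrable (fun θ : ℝ => M ^ r * ‖κ ((circleMap 0 1 θ) ^ n)‖ ^ r) volume 0
      (2 * Real.pi) := (cκn.const_mul _).intervalIntegrable _ _
  have hsc : ∫ θ in (0:ℝ)..(2 * Real.pi), ‖κ ((circleMap 0 1 θ) ^ n)‖ ^ r =
      ∫ θ in (0:ℝ)..(2 * Real.pi), ‖κ (circleMap 0 1 θ)‖ ^ r := by
    apply circ_scale (φ := fun w => ‖κ w‖ ^ r) _ hn
    exact (hκ.mono sphere_subset_closedBall).norm.rpow_const fun _ _ => Or.inr hr0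
  rw [intervalIntegral.integral_add i1 i2, intervalIntegral.integral_const_mul,
    intervalIntegral.integral_const_mul, intervalIntegral.integral_const_mul,
    intervalIntegral.integral_add i3 intervalIntegrable_const, intervalIntegral.integral_const_mul,
    hsc, intervalIntegral.integral_const]
  simp

end Pool.Agent.R253.KF
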