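import Pool.Agent.R253.KF.Step2

set_option autoImplicit false

namespace Pool.Agent.R253.KF

open Complex Metric Set Filter Topology MeasureTheory ComplexConjugate
open Pool.Agent.R253.BE

lemma choose_zeta {K ε : ℝ} (hK : 0 ≤ K) (hε : 0 < ε) :
    ∃ ζ : ℂ, ‖ζ‖ = 1 ∧ ζ.re < 1 ∧ K * Real.sqrt (2 - 2 * ζ.re) ≤ ε := by
  set φ : ℝ := min 1 (ε / (K + 1)) with hφ
  have h0 : 0 < φ := lt_min one_pos (by positivity)
  have h1 : φ ≤ 1 := min_le_left _ _
  have hπ := Real.pi_gt_three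
  refine ⟨exp (φ * I), Complex.norm_exp_ofReal_mul_I φ, ?_, ?_⟩
  · rw [Complex.exp_ofReal_mul_I_re]
    have := Real.cos_lt_cos_of_nonneg_of_le_pi le_rfl (by linarith : φ ≤ Real.pi) h0
    rwa [Real.cos_zero] at this
  · rw [Complex.exp_ofReal_mul_I_re]
    have h2 := Real.one_sub_sq_div_two_le_cos (x := φ)
    have h3 : Real.sqrt (2 - 2 * Real.cos φ) ≤ φ := by
      apply Real.sqrt_le_iff.2 ⟨h0.le, by linarith⟩
    have h4 : φ ≤ ε / (K + 1) := min_le_right _ _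
    rw [le_div_iff₀ (by positivity)] at h4
    nlinarith

lemma choose_eta {μ m T : ℝ} (hμ : 0 < μ) (hm : 0 < m) :
    ∃ η : ℝ, 1 / 2 ≤ η ∧ 0 < η ∧ η < 1 ∧
      T ≤ m * (Real.sqrt (μ * η) * Real.log (1 / (1 - η)) - 2 * Real.pi) := by
  set q : ℝ := Real.sqrt (μ / 2) with hq
  have hq0 : 0 < q := Real.sqrt_pos.2 (by positivity)
  set X : ℝ := max (Real.log 2) ((T / m + 2 * Real.pi) / q) with hX
  have hX1 : Real.log 2 ≤ X := le_max_left _ _
  have hX2 : (T / m + 2 * Real.pi) / q ≤ X := le_max_right _ _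
  have hX0 : 0 < X := lt_of_lt_of_le (Real.log_pos (by norm_num)) hX1
  have he : Real.exp (-X) ≤ 1 / 2 := by
    rw [Real.exp_neg, one_div]
    apply inv_anti₀ (by norm_num)
    rw [← Real.log_le_iff_le_exp (by norm_num)]
    exact hX1
  have he0 := Real.exp_pos (-X)
  refine ⟨1 - Real.exp (-X), by linarith, by linarith, by linarith, ?_⟩
  have e1 : 1 - (1 - Real.exp (-X)) = Real.exp (-X) := by ring
  rw [e1, one_div, ← Real.exp_neg, neg_neg, Real.log_exp]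
  rw [div_le_iff₀ hq0] at hX2
  have h3 : q ≤ Real.sqrt (μ * (1 - Real.exp (-X))) := by
    apply Real.sqrt_le_sqrt
    nlinarith
  have h4 : T / m + 2 * Real.pi ≤ Real.sqrt (μ * (1 - Real.exp (-X))) * X := by
    nlinarith
  have h5 : T / m ≤ Real.sqrt (μ * (1 - Real.exp (-X))) * X - 2 * Real.pi := by linarith
  rw [div_le_iff₀ hm] at h5
  linarith

lemma GH_cont {ν : ℝ} {L : ℂ → ℂ} {s : Set ℂ} (hL : ContinuousOn L s) : ContinuousOn (GH ν L) s := by
  unfold GH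
  apply ContinuousOn.mul hL.cexp
  apply Complex.continuous_conj.comp_continuousOn
  exact (continuousOn_const.mul hL).cexp

lemma norm_exp_ge {w : ℂ} {C : ℝ} (h : ‖w‖ ≤ C) : Real.exp (-C) ≤ ‖exp w‖ := by
  rw [Complex.norm_exp]
  apply Real.exp_le_exp.2
  have := (abs_le.1 (Complex.abs_re_le_norm w)).1
  linarith

/-- **The step of the construction.** -/
theorem step {ν r q : ℝ} (hr : 1 ≤ r) (hq : 0 ≤ q) (hν : ν * r = r - 1 / 2) {L k : ℂ → ℂ}
    (hS : St ν L k) {ε ρ : ℝ} (hε : 0 < ε) (hρ0 : 0 ≤ ρ) (hρ1 : ρ < 1) (T : ℝ) :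
    ∃ (L' k' : ℂ → ℂ) (ρ' : ℝ), St ν L' k' ∧ ρ < ρ' ∧ 1 - ε < ρ' ∧ ρ' < 1 ∧
      (∀ z, ‖z‖ ≤ ρ → ‖L' z - L z‖ ≤ ε ∧ ‖k' z - k z‖ ≤ ε) ∧
      ∫ z in ball (0:ℂ) 1, ‖exp (L' z)‖ ^ (2:ℝ) ≤ (∫ z in ball (0:ℂ) 1, ‖exp (L z)‖ ^ (2:ℝ)) + ε ∧
      ∫ z in ball (0:ℂ) 1, ‖k' z‖ ^ q ≤ (∫ z in ball (0:ℂ) 1, ‖k z‖ ^ q) + ε ∧
      ∫ θ in (0:ℝ)..(2 * Real.pi), ‖k' (circleMap 0 1 θ)‖ ^ r ≤
        (∫ θ in (0:ℝ)..(2 * Real.pi), ‖k (circleMap 0 1 θ)‖ ^ r) + ε ∧
      T ≤ ∫ θ in (0:ℝ)..(2 * Real.pi), ‖exp (L' (circleMap 0 ρ' θ))‖ ^ (1 / 2 : ℝ) := by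
  have hpi : (0:ℝ) < 2 * Real.pi := by positivity
  obtain ⟨R, hR, hL⟩ := hS.hL
  have hcb : closedBall (0:ℂ) 1 ⊆ ball 0 R := closedBall_subset_ball hR
  have cL : ContinuousOn L (closedBall 0 1) := hL.continuousOn.mono hcb
  obtain ⟨M, hM⟩ := (isCompact_closedBall (0:ℂ) 1).exists_bound_of_continuousOn (GH_cont (ν := ν) cL)
  obtain ⟨C, hC⟩ := (isCompact_closedBall (0:ℂ) 1).exists_bound_of_continuousOn cL
  have hM0 : 0 ≤ M := (norm_nonneg _).trans (hM 0 (by simp))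
  set Ik : ℝ := ∫ θ in (0:ℝ)..(2 * Real.pi), ‖k (circleMap 0 1 θ)‖ ^ r with hIk
  obtain ⟨s, hs0, hs1, hs⟩ := choose_s (r := r) (I := Ik) (show 0 < ε / 3 by positivity)
  set K1 : ℝ := s ^ (1 - r) * (1 / 2) ^ (1 - r) with hK1
  have hK10 : 0 ≤ K1 := by positivity
  set K2 : ℝ := K1 * (M ^ r * (2 * Real.pi * 16 ^ (r - 1 / 2))) with hK2
  have hK20 : 0 ≤ K2 := by positivity
  obtain ⟨ζ, hζ, hζ1, hζK⟩ := choose_zeta hK20 (show 0 < ε / 3 by positivity)
  set μ : ℝ := 2 - 2 * ζ.re with hμd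
  have hμ : 0 < μ := by linarith
  set m : ℝ := Real.exp (-C) ^ (1 / 2 : ℝ) with hm
  have hm0 : 0 < m := Real.rpow_pos_of_pos (Real.exp_pos _) _
  obtain ⟨η, hη2, h0, h1, hηT⟩ := choose_eta (T := T + 1) hμ hm0
  have hη : 1 < 1 / η := by rw [lt_div_iff₀ h0]; linarith
  obtain ⟨kn, U, d, hSt, hU, hd0, hd, heA⟩ := step_pre hS hζ h0 h1
  obtain ⟨e, he0, he⟩ := heA ρ hρ0 hρ1
  -- the deviation function on the circle
  set κ : ℂ → ℂ := fun w => (Th μ η w - 1) * conj (exp (-(ν:ℂ) * Lam ζ η η)) with hκ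
  have cκ : ContinuousOn κ (closedBall 0 1) :=
    ((Th_cont h0 h1).sub continuousOn_const).mul continuousOn_const
  have hκI : ∫ θ in (0:ℝ)..(2 * Real.pi), ‖κ (circleMap 0 1 θ)‖ ^ r ≤
      2 * Real.pi * (16 ^ (r - 1 / 2) * Real.sqrt μ) := by
    have h2 : ∀ θ : ℝ, ‖κ (circleMap 0 1 θ)‖ ^ r = ‖exp (-(ν:ℂ) * Lam ζ η η)‖ ^ r *
        ‖Th μ η (circleMap 0 1 θ) - 1‖ ^ r := by
      intro θ
      simp only [hκ]
      rw [norm_mul, RCLike.norm_conj, Real.mul_rpow (norm_nonneg _) (norm_nonneg _), mul_comm]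
    simp only [h2]
    rw [intervalIntegral.integral_const_mul]
    exact kap_bound h0 h1 hζ hζ1 hη2 hr hν
  -- choice of `n`
  have hΛ : ContinuousAt (Lam ζ η) 0 := by
    apply (Lam_diff hζ h0).continuousOn.continuousAt
    exact ball_mem_nhds 0 (by linarith)
  have cΛ : ContinuousOn (Lam ζ η) (closedBall 0 1) :=
    (Lam_diff hζ h0).continuousOn.mono (closedBall_subset_ball hη)
  obtain ⟨CΛ, hCΛ⟩ := (isCompact_closedBall (0:ℂ) 1).exists_bound_of_continuousOn cΛ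
  have ev1 : ∀ᶠ n : ℕ in atTop, K1 * (2 * Real.pi * |d n| ^ r) ≤ ε / 3 := by
    have h2 : Tendsto (fun n => K1 * (2 * Real.pi * |d n| ^ r)) atTop
        (𝓝 (K1 * (2 * Real.pi * |0| ^ r))) :=
      ((hd0.abs.rpow_const (Or.inr (by linarith))).const_mul _).const_mul _
    rw [abs_zero, Real.zero_rpow (by linarith), mul_zero, mul_zero] at h2
    exact (h2.eventually (gt_mem_nhds (by positivity : (0:ℝ) < ε / 3))).mono fun n hn => hn.le
  have ev2 : ∀ᶠ n : ℕ in atTop, e n ≤ ε :=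
    (he0.eventually (gt_mem_nhds hε)).mono fun n hn => hn.le
  have ev3 : ∀ᶠ n : ℕ in atTop, ∀ z : ℂ, ‖z‖ ≤ ρ → ‖Lam ζ η (z ^ n)‖ ≤ ε := by
    obtain ⟨δ, hδ, hδ2⟩ := Metric.continuousAt_iff.1 hΛ ε hε
    have h2 := tendsto_pow_atTop_nhds_zero_of_lt_one hρ0 hρ1
    filter_upwards [h2.eventually (gt_mem_nhds hδ)] with n hn z hz
    have h3 : dist (z ^ n) 0 < δ := by
      rw [dist_zero_right, norm_pow]
      exact lt_of_le_of_lt (pow_le_pow_left₀ (norm_nonneg _) hz n) hn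
    have h4 := hδ2 h3
    rw [Lam_zero, dist_zero_right] at h4
    exact h4.le
  have zpow : ∀ z ∈ ball (0:ℂ) 1, Tendsto (fun n : ℕ => z ^ n) atTop (𝓝 0) := fun z hz =>
    tendsto_pow_atTop_nhds_zero_of_norm_lt_one (mem_ball_zero_iff.1 hz)
  have zpow1 : ∀ z ∈ ball (0:ℂ) 1, ∀ n : ℕ, z ^ n ∈ closedBall (0:ℂ) 1 := by
    intro z hz n
    rw [mem_closedBall_zero_iff, norm_pow]
    exact pow_le_one₀ (norm_nonneg _) (mem_ball_zero_iff.1 hz).le
  have ev4 : ∀ᶠ n : ℕ in atTop, ∫ z in ball (0:ℂ) 1, ‖exp (L z + Lam ζ η (z ^ n))‖ ^ (2:ℝ) ≤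
      (∫ z in ball (0:ℂ) 1, ‖exp (L z)‖ ^ (2:ℝ)) + ε := by
    have h2 := ball_lim (f := fun (n : ℕ) z => exp (L z + Lam ζ η (z ^ n))) (g := fun z => exp (L z))
      (U := Real.exp (C + CΛ)) (q := 2) (by norm_num)
      (by
        filter_upwards with n
        apply ContinuousOn.cexp
        apply (cL.mono ball_subset_closedBall).add
        exact cΛ.comp (by fun_prop) fun z hz => zpow1 z hz n)
      (by
        filter_upwards with n z hz
        rw [Complex.norm_exp]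
        apply Real.exp_le_exp.2
        have a1 := Complex.re_le_norm (L z + Lam ζ η (z ^ n))
        have a2 := norm_add_le (L z) (Lam ζ η (z ^ n))
        have a3 := hC z (ball_subset_closedBall hz)
        have a4 := hCΛ _ (zpow1 z hz n)
        linarith)
      (by
        intro z hz
        have a1 : Tendsto (fun n : ℕ => L z + Lam ζ η (z ^ n)) atTop (𝓝 (L z + Lam ζ η 0)) :=
          (hΛ.tendsto.comp (zpow z hz)).const_add _
        rw [Lam_zero, add_zero] at a1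
        exact (Complex.continuous_exp.tendsto _).comp a1)
    exact (h2.eventually (gt_mem_nhds (by linarith))).mono fun n hn => hn.le
  have ev0 : ∀ᶠ n : ℕ in atTop, 0 < n := eventually_gt_atTop 0
  have ev5 : ∀ᶠ n : ℕ in atTop, ∫ z in ball (0:ℂ) 1, ‖kn n z‖ ^ q ≤
      (∫ z in ball (0:ℂ) 1, ‖k z‖ ^ q) + ε := by
    have h2 := ball_lim (f := kn) (g := k) (U := U) (q := q) hq
      (by
        filter_upwards [ev0] with n hn
        exact (hSt n hn).kc.mono ball_subset_closedBall)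
      (by
        filter_upwards with n z hz
        exact hU n z (mem_ball_zero_iff.1 hz).le)
      (by
        intro z hz
        rw [mem_ball_zero_iff] at hz
        obtain ⟨e', he0', he'⟩ := heA ‖z‖ (norm_nonneg _) hz
        rw [tendsto_iff_norm_sub_tendsto_zero]
        apply squeeze_zero' (Eventually.of_forall fun n => norm_nonneg _) _ he0'
        filter_upwards [ev0] with n hn
        exact he' n z hn le_rfl)
    exact (h2.eventually (gt_mem_nhds (by linarith))).mono fun n hn => hn.le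
  obtain ⟨n, hn0, hn1, hn2, hn3, hn4, hn5⟩ :=
    (ev0.and (ev1.and (ev2.and (ev3.and (ev4.and ev5))))).exists
  have hSn := hSt n hn0
  set L' : ℂ → ℂ := fun z => L z + Lam ζ η (z ^ n) with hL'
  have cL' : ContinuousOn L' (closedBall 0 1) := by
    obtain ⟨R', hR', hd'⟩ := hSn.hL
    exact hd'.continuousOn.mono (closedBall_subset_ball hR')
  -- the choice of the radius
  set V : ℂ → ℝ := fun z => ‖exp (L' z)‖ ^ (1 / 2 : ℝ) with hV
  have cV : ContinuousOn V (closedBall 0 1) := cL'.cexp.norm.rpow_const fun _ _ => Or.inr (by norm_num)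
  have hV1 : T + 1 ≤ ∫ θ in (0:ℝ)..(2 * Real.pi), V (circleMap 0 1 θ) := by
    refine hηT.trans ?_
    have b1 := mul_le_mul_of_nonneg_left (Th_lower h0 h1 hμ) hm0.le
    refine b1.trans ?_
    have b2 : ∫ θ in (0:ℝ)..(2 * Real.pi), ‖Th μ η (circleMap 0 1 θ)‖ ^ (1 / 2 : ℝ) =
        ∫ θ in (0:ℝ)..(2 * Real.pi), ‖Th μ η ((circleMap 0 1 θ) ^ n)‖ ^ (1 / 2 : ℝ) := by
      symm
      apply circ_scale (φ := fun w => ‖Th μ η w‖ ^ (1 / 2 : ℝ)) _ hn0
      exact ((Th_cont h0 h1).mono sphere_subset_closedBall).norm.rpow_const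
        fun _ _ => Or.inr (by norm_num)
    rw [b2, ← intervalIntegral.integral_const_mul]
    apply intervalIntegral.integral_mono_on hpi.le
    · apply Continuous.intervalIntegrable
      apply Continuous.mul continuous_const
      apply Continuous.rpow_const _ fun _ => Or.inr (by norm_num)
      apply Continuous.norm
      apply (Th_cont h0 h1).comp_continuous ((continuous_circleMap 0 1).pow n)
      intro θ; simp
    · apply Continuous.intervalIntegrable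
      apply cV.comp_continuous (continuous_circleMap 0 1)
      intro θ; simp
    · intro θ _
      set z := circleMap 0 1 θ with hz
      have hz1 : ‖z‖ = 1 := by simp [hz]
      have hzb : z ∈ closedBall (0:ℂ) 1 := by rw [mem_closedBall_zero_iff, hz1]
      have hzn : ‖z ^ n‖ < 1 / η := by rw [norm_pow, hz1, one_pow]; exact hη
      simp only [hV, hL']
      rw [Complex.exp_add, exp_Lam hζ h0 hzn, norm_mul, Real.mul_rpow (norm_nonneg _) (norm_nonneg _)]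
      apply mul_le_mul_of_nonneg_right _ (by positivity)
      exact Real.rpow_le_rpow (Real.exp_pos _).le (norm_exp_ge (hC z hzb)) (by norm_num)
  have hlr := lim_radius cV
  have ev6 : ∀ᶠ ρ' in 𝓝[<] (1:ℝ), T < ∫ θ in (0:ℝ)..(2 * Real.pi), V (circleMap 0 ρ' θ) :=
    hlr.eventually (lt_mem_nhds (by linarith))
  have ev7 : ∀ᶠ ρ' in 𝓝[<] (1:ℝ), ρ' ∈ Ioo (max ρ (1 - ε)) 1 :=
    Ioo_mem_nhdsLT (max_lt hρ1 (by linarith))
  obtain ⟨ρ', hρT, hρ'⟩ := (ev6.and ev7).exists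
  refine ⟨L', kn n, ρ', hSn, lt_of_le_of_lt (le_max_left _ _) hρ'.1,
    lt_of_le_of_lt (le_max_right _ _) hρ'.1, hρ'.2, ?_, hn4, hn5, ?_, hρT.le⟩
  · intro z hz
    refine ⟨?_, (he n z hn0 hz).trans hn2⟩
    simp only [hL', add_sub_cancel_left]
    exact hn3 z hz
  · have c := circ_part (kn := kn n) (k := k) (g := GH ν L) (κ := κ) hSn.kc hS.kc cκ
      (fun z hz => hM z (by rw [mem_closedBall_zero_iff, hz])) hM0 hn0 (fun z hz => hd n z hn0 hz)
      hr hs0 hs1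
    refine c.trans ?_
    have c2 : s ^ (1 - r) * ((1 / 2) ^ (1 - r) * (M ^ r *
        (∫ θ in (0:ℝ)..(2 * Real.pi), ‖κ (circleMap 0 1 θ)‖ ^ r) + 2 * Real.pi * |d n| ^ r)) =
        K1 * (M ^ r * (∫ θ in (0:ℝ)..(2 * Real.pi), ‖κ (circleMap 0 1 θ)‖ ^ r)) +
        K1 * (2 * Real.pi * |d n| ^ r) := by
      rw [hK1]; ring
    rw [c2]
    have c3 : K1 * (M ^ r * (∫ θ in (0:ℝ)..(2 * Real.pi), ‖κ (circleMap 0 1 θ)‖ ^ r)) ≤ ε / 3 := by
      refine le_trans ?_ hζK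
      have c4 : K2 * Real.sqrt μ = K1 * (M ^ r * (2 * Real.pi * (16 ^ (r - 1 / 2) * Real.sqrt μ))) := by
        rw [hK2]; ring
      rw [c4]
      gcongr
    linarith

end Pool.Agent.R253.KF
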