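import Pool.Agent.R253.KF.Fam

set_option autoImplicit false

namespace Pool.Agent.R253.KF

open Complex Metric Set Filter Topology MeasureTheory ComplexConjugate
open Pool.Agent.R253.BE

/-- `Θ(w) = 1 + μ η w / (1 - η w)²` -/
noncomputable def Th (μ η : ℝ) (w : ℂ) : ℂ := 1 + μ * ((η * w) / (1 - η * w) ^ 2)

/-- an analytic logarithm of `Θ`, `μ = 2 - 2 Re ζ`, `|ζ| = 1` -/
noncomputable def Lam (ζ : ℂ) (η : ℝ) (w : ℂ) : ℂ :=
  log (1 - η * (ζ * w)) + log (1 - η * (conj ζ * w)) - 2 * log (1 - η * w)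

lemma one_sub_slit {t : ℂ} (ht : ‖t‖ < 1) : 1 - t ∈ slitPlane := by
  have := Complex.mem_slitPlane_of_norm_lt_one (z := -t) (by rwa [norm_neg])
  rwa [← sub_eq_add_neg] at this

lemma one_sub_ne' {t : ℂ} (ht : ‖t‖ < 1) : 1 - t ≠ 0 := Complex.slitPlane_ne_zero (one_sub_slit ht)

lemma norm_eta {η : ℝ} (h0 : 0 < η) {c w : ℂ} (hc : ‖c‖ = 1) (hw : ‖w‖ < 1 / η) :
    ‖(η:ℂ) * (c * w)‖ < 1 := by
  rw [norm_mul, norm_mul, hc, one_mul, Complex.norm_real, Real.norm_eq_abs, abs_of_pos h0]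
  rw [lt_div_iff₀ h0] at hw
  linarith

lemma Lam_diff {ζ : ℂ} (hζ : ‖ζ‖ = 1) {η : ℝ} (h0 : 0 < η) :
    DifferentiableOn ℂ (Lam ζ η) (ball 0 (1 / η)) := by
  intro w hw
  rw [mem_ball_zero_iff] at hw
  have key : ∀ c : ℂ, ‖c‖ = 1 → DifferentiableAt ℂ (fun w : ℂ => log (1 - η * (c * w))) w := by
    intro c hc
    apply DifferentiableAt.clog (by fun_prop)
    exact one_sub_slit (norm_eta h0 hc hw)
  have h1 := key ζ hζ
  have h2 := key (conj ζ) (by rwa [RCLike.norm_conj])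
  have h3 := key 1 norm_one
  simp only [one_mul] at h3
  exact ((h1.add h2).sub (h3.const_mul 2)).differentiableWithinAt

lemma Lam_zero (ζ : ℂ) (η : ℝ) : Lam ζ η 0 = 0 := by simp [Lam]

lemma exp_Lam {ζ : ℂ} (hζ : ‖ζ‖ = 1) {η : ℝ} (h0 : 0 < η) {w : ℂ} (hw : ‖w‖ < 1 / η) :
    exp (Lam ζ η w) = Th (2 - 2 * ζ.re) η w := by
  have h1 := one_sub_ne' (norm_eta h0 hζ hw)
  have h2 := one_sub_ne' (norm_eta h0 (c := conj ζ) (by rwa [RCLike.norm_conj]) hw)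
  have h3 := one_sub_ne' (norm_eta h0 (c := 1) norm_one hw)
  rw [one_mul] at h3
  unfold Lam Th
  rw [Complex.exp_sub, Complex.exp_add, Complex.exp_log h1, Complex.exp_log h2,
    show (2:ℂ) * log (1 - η * w) = ((2:ℕ):ℂ) * log (1 - η * w) by norm_num, Complex.exp_nat_mul,
    Complex.exp_log h3]
  have hz : ζ * conj ζ = 1 := by rw [Complex.mul_conj', hζ]; norm_num
  have hr : ζ + conj ζ = ((2 * ζ.re : ℝ) : ℂ) := Complex.add_conj ζ
  have e : (1 - (η:ℂ) * (ζ * w)) * (1 - η * (conj ζ * w)) =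
      1 - (η * w) * (ζ + conj ζ) + (η * w) ^ 2 * (ζ * conj ζ) := by ring
  rw [e, hz, hr]
  push_cast
  field_simp
  ring

/-- coefficients of `Θ` -/
noncomputable def thc (μ η : ℝ) (j : ℕ) : ℂ := (if j = 0 then 1 else 0) + μ * ((j : ℂ) * (η : ℂ) ^ j)

lemma thc_hasSum (μ : ℝ) {η : ℝ} (h0 : 0 < η) {w : ℂ} (hw : ‖w‖ < 1 / η) :
    HasSum (fun j => thc μ η j * w ^ j) (Th μ η w) := by
  have hn : ‖(η:ℂ) * w‖ < 1 := by
    have := norm_eta h0 (c := 1) norm_one hw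
    rwa [one_mul] at this
  have h1 := (hasSum_coe_mul_geometric_of_norm_lt_one hn).mul_left (μ : ℂ)
  have h2 : HasSum (fun j : ℕ => if j = 0 then (1:ℂ) else 0) 1 := hasSum_ite_eq 0 1
  have h3 := h2.add h1
  unfold Th
  have e : (fun j => thc μ η j * w ^ j) =
      fun b : ℕ => (if b = 0 then (1:ℂ) else 0) + (μ:ℂ) * ((b:ℂ) * ((η:ℂ) * w) ^ b) := by
    ext j
    unfold thc
    rw [mul_pow]
    by_cases hj : j = 0
    · subst hj; simp
    · simp only [hj, if_false]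
      ring
  rw [e]
  exact h3

end Pool.Agent.R253.KF
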