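import Pool.Agent.R253.KF.Theta
import Pool.Agent.R253.BE.Hardy

set_option autoImplicit false

namespace Pool.Agent.R253.KF

open Complex Metric Set Filter Topology MeasureTheory ComplexConjugate
open Pool.Agent.R253.BE

lemma circ_pow_eq (n : ℕ) (θ : ℝ) : (circleMap 0 1 θ) ^ n = circleMap 0 1 (n * θ) := by
  unfold circleMap
  rw [zero_add, zero_add]
  push_cast
  rw [mul_pow, one_pow, one_mul, one_mul, ← Complex.exp_nat_mul]
  congr 1
  ring

lemma circ_cont {φ : ℂ → ℝ} (hφ : ContinuousOn φ (sphere 0 1)) :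
    Continuous fun θ : ℝ => φ (circleMap 0 1 θ) := by
  apply hφ.comp_continuous (continuous_circleMap 0 1)
  intro θ
  simp

lemma circ_scale {φ : ℂ → ℝ} (hφ : ContinuousOn φ (sphere 0 1)) {n : ℕ} (hn : 0 < n) :
    ∫ θ in (0:ℝ)..(2 * Real.pi), φ ((circleMap 0 1 θ) ^ n) =
      ∫ θ in (0:ℝ)..(2 * Real.pi), φ (circleMap 0 1 θ) := by
  set g : ℝ → ℝ := fun θ => φ (circleMap 0 1 θ) with hg
  have hgc : Continuous g := circ_cont hφ
  have hper : Function.Periodic g (2 * Real.pi) := by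
    intro θ
    simp only [hg]
    rw [periodic_circleMap 0 1 θ]
  have e : ∀ θ : ℝ, φ ((circleMap 0 1 θ) ^ n) = g (n * θ) := fun θ => by
    simp only [hg, circ_pow_eq]
  simp only [e]
  have hn' : (n:ℝ) ≠ 0 := by positivity
  rw [intervalIntegral.integral_comp_mul_left g hn', mul_zero]
  have h := hper.intervalIntegral_add_zsmul_eq (n := (n:ℤ)) (t := 0)
    (fun a b => hgc.intervalIntegrable a b)
  simp only [zero_add, natCast_zsmul, nsmul_eq_mul] at h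
  rw [h, smul_eq_mul, ← mul_assoc, inv_mul_cancel₀ hn', one_mul]

section

variable {η : ℝ} (h0 : 0 < η) (h1 : η < 1)

include h0 h1

lemma norm_circ_eta (θ : ℝ) : ‖1 - (η:ℂ) * circleMap 0 1 θ‖ = ‖circleMap 0 1 θ - (η:ℂ)‖ := by
  have hz := circ_norm θ
  have e := conj_id (a := (η:ℂ)) hz
  rw [Complex.conj_ofReal] at e
  rw [e, norm_mul, hz, one_mul, RCLike.norm_conj]

lemma circ_eta_lower (θ : ℝ) : 1 - η ≤ ‖1 - (η:ℂ) * circleMap 0 1 θ‖ := by
  have h := norm_sub_norm_le (1:ℂ) ((η:ℂ) * circleMap 0 1 θ)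
  rw [norm_one, norm_mul, circ_norm, mul_one, Complex.norm_real, Real.norm_eq_abs,
    abs_of_pos h0] at h
  exact h

lemma circ_eta_int : ∫ θ in (0:ℝ)..(2 * Real.pi), 1 / ‖1 - (η:ℂ) * circleMap 0 1 θ‖ ^ 2 =
    2 * Real.pi / (1 - η ^ 2) := by
  have ha : ‖(η:ℂ)‖ < 1 := by rwa [Complex.norm_real, Real.norm_eq_abs, abs_of_pos h0]
  have h := pz_int ha
  have e : ∀ θ, pz (η:ℂ) θ = (1 - η ^ 2) * (1 / ‖1 - (η:ℂ) * circleMap 0 1 θ‖ ^ 2) := by
    intro θ
    unfold pz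
    rw [norm_circ_eta h0 h1, Complex.norm_real, Real.norm_eq_abs, abs_of_pos h0]
    ring
  simp only [e] at h
  rw [intervalIntegral.integral_const_mul] at h
  have h2 : (1:ℝ) - η ^ 2 ≠ 0 := by nlinarith
  rw [eq_div_iff h2, mul_comm]
  exact h

lemma Th_sub_one {μ : ℝ} (hμ : 0 ≤ μ) (θ : ℝ) :
    ‖Th μ η (circleMap 0 1 θ) - 1‖ = μ * η / ‖1 - (η:ℂ) * circleMap 0 1 θ‖ ^ 2 := by
  unfold Th
  rw [add_sub_cancel_left, norm_mul, norm_div, norm_pow, norm_mul, circ_norm, mul_one,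
    Complex.norm_real, Complex.norm_real, Real.norm_eq_abs, Real.norm_eq_abs, abs_of_pos h0,
    abs_of_nonneg hμ]
  ring

lemma Th_cont {μ : ℝ} : ContinuousOn (Th μ η) (closedBall 0 1) := by
  unfold Th
  apply ContinuousOn.add continuousOn_const
  apply ContinuousOn.mul continuousOn_const
  apply ContinuousOn.div (by fun_prop) (by fun_prop)
  intro w hw
  have hw' : ‖w‖ < 1 / η := by
    rw [mem_closedBall_zero_iff] at hw
    refine lt_of_le_of_lt hw ?_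
    rw [lt_div_iff₀ h0]; linarith
  have h3 := one_sub_ne' (norm_eta h0 (c := 1) norm_one hw')
  rw [one_mul] at h3
  exact pow_ne_zero 2 h3

lemma Th_bound {μ r : ℝ} (hμ : 0 < μ) (hr : 1 ≤ r) :
    ∫ θ in (0:ℝ)..(2 * Real.pi), ‖Th μ η (circleMap 0 1 θ) - 1‖ ^ r ≤
      2 * Real.pi * (μ ^ r * (1 - η) ^ (1 - 2 * r)) := by
  have hη : 0 < 1 - η := by linarith
  have hc : Continuous fun θ : ℝ => ‖1 - (η:ℂ) * circleMap 0 1 θ‖ := by
    have := continuous_circleMap 0 1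
    fun_prop
  have hp : ∀ θ : ℝ, 0 < ‖1 - (η:ℂ) * circleMap 0 1 θ‖ := fun θ =>
    lt_of_lt_of_le hη (circ_eta_lower h0 h1 θ)
  have hle : ∀ θ : ℝ, ‖Th μ η (circleMap 0 1 θ) - 1‖ ^ r ≤
      (μ ^ r * (1 - η) ^ (2 - 2 * r)) * (1 / ‖1 - (η:ℂ) * circleMap 0 1 θ‖ ^ 2) := by
    intro θ
    set x := ‖1 - (η:ℂ) * circleMap 0 1 θ‖ with hx
    have hx0 : 0 < x := hp θ
    rw [Th_sub_one h0 h1 hμ.le, ← hx]
    have e1 : (μ * η / x ^ 2) ^ r ≤ (μ / x ^ 2) ^ r := by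
      apply Real.rpow_le_rpow (by positivity) _ (by linarith)
      apply div_le_div_of_nonneg_right _ (by positivity)
      nlinarith
    refine e1.trans ?_
    rw [Real.div_rpow hμ.le (by positivity)]
    have e2 : (x ^ 2) ^ r = x ^ (2 * r - 2) * x ^ 2 := by
      rw [← Real.rpow_natCast x 2, ← Real.rpow_mul hx0.le, ← Real.rpow_add hx0]
      congr 1
      push_cast
      ring
    rw [e2]
    have e3 : (1 - η) ^ (2 * r - 2) ≤ x ^ (2 * r - 2) :=
      Real.rpow_le_rpow hη.le (circ_eta_lower h0 h1 θ) (by linarith)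
    have e4 : (1 - η) ^ (2 - 2 * r) = ((1 - η) ^ (2 * r - 2))⁻¹ := by
      rw [← Real.rpow_neg hη.le]; congr 1; ring
    have e5 : 0 < (1 - η) ^ (2 * r - 2) := Real.rpow_pos_of_pos hη _
    have e6 : 0 < μ ^ r := Real.rpow_pos_of_pos hμ _
    rw [e4]
    calc μ ^ r / (x ^ (2 * r - 2) * x ^ 2) ≤ μ ^ r / ((1 - η) ^ (2 * r - 2) * x ^ 2) := by
          gcongr
      _ = μ ^ r * ((1 - η) ^ (2 * r - 2))⁻¹ * (1 / x ^ 2) := by
          field_simp
  have hi1 : Continuous fun θ : ℝ => ‖Th μ η (circleMap 0 1 θ) - 1‖ ^ r := by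
    apply Continuous.rpow_const _ fun θ => Or.inr (by linarith)
    apply Continuous.norm
    apply Continuous.sub _ continuous_const
    apply (Th_cont h0 h1).comp_continuous (continuous_circleMap 0 1)
    intro θ
    simp
  have hi2 : Continuous fun θ : ℝ =>
      (μ ^ r * (1 - η) ^ (2 - 2 * r)) * (1 / ‖1 - (η:ℂ) * circleMap 0 1 θ‖ ^ 2) := by
    apply Continuous.mul continuous_const
    apply Continuous.div continuous_const (hc.pow 2)
    intro θ
    exact pow_ne_zero 2 (hp θ).ne'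
  have h3 : ∫ θ in (0:ℝ)..(2 * Real.pi), ‖Th μ η (circleMap 0 1 θ) - 1‖ ^ r ≤
      ∫ θ in (0:ℝ)..(2 * Real.pi),
        (μ ^ r * (1 - η) ^ (2 - 2 * r)) * (1 / ‖1 - (η:ℂ) * circleMap 0 1 θ‖ ^ 2) :=
    intervalIntegral.integral_mono_on (by positivity) (hi1.intervalIntegrable 0 (2 * Real.pi))
      (hi2.intervalIntegrable 0 (2 * Real.pi)) fun θ _ => hle θ
  refine h3.trans ?_
  rw [intervalIntegral.integral_const_mul, circ_eta_int h0 h1]
  have e7 : (1 - η) ^ (2 - 2 * r) = (1 - η) ^ (1 - 2 * r) * (1 - η) := by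
    conv_rhs => rw [← Real.rpow_one (1 - η), ← Real.rpow_mul hη.le, one_mul]
    rw [← Real.rpow_add hη]
    congr 1; ring
  rw [e7]
  have e8 : (1 - η) * (2 * Real.pi / (1 - η ^ 2)) ≤ 2 * Real.pi := by
    have : (1:ℝ) - η ^ 2 = (1 - η) * (1 + η) := by ring
    rw [this, mul_div_assoc', div_le_iff₀ (by positivity)]
    have : 0 ≤ Real.pi * ((1 - η) * η) := by positivity
    nlinarith
  calc μ ^ r * ((1 - η) ^ (1 - 2 * r) * (1 - η)) * (2 * Real.pi / (1 - η ^ 2))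
      = (μ ^ r * (1 - η) ^ (1 - 2 * r)) * ((1 - η) * (2 * Real.pi / (1 - η ^ 2))) := by ring
    _ ≤ (μ ^ r * (1 - η) ^ (1 - 2 * r)) * (2 * Real.pi) := by
        apply mul_le_mul_of_nonneg_left e8
        positivity
    _ = _ := by ring

lemma Th_eta {μ : ℝ} (hμ : 0 < μ) (h2 : 1 / 2 ≤ η) :
    μ / (16 * (1 - η) ^ 2) ≤ ‖Th μ η η‖ := by
  have e : Th μ η η = ((1 + μ * (η ^ 2 / (1 - η ^ 2) ^ 2) : ℝ) : ℂ) := by
    unfold Th
    push_cast
    rw [show (η:ℂ) * η = η ^ 2 by ring]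
  have h3 : 0 < 1 - η ^ 2 := by nlinarith
  have h4 : 0 < 1 - η := by linarith
  rw [e, Complex.norm_real, Real.norm_eq_abs, abs_of_pos (by positivity)]
  have h5 : 1 / (16 * (1 - η) ^ 2) ≤ η ^ 2 / (1 - η ^ 2) ^ 2 := by
    rw [div_le_div_iff₀ (by positivity) (by positivity)]
    have : (1 - η ^ 2) ^ 2 = (1 - η) ^ 2 * (1 + η) ^ 2 := by ring
    rw [this]
    have h6 : (1 + η) ^ 2 ≤ 16 * η ^ 2 := by nlinarith
    have h7 : 0 ≤ (1 - η) ^ 2 := by positivity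
    nlinarith
  have h8 := mul_le_mul_of_nonneg_left h5 hμ.le
  have h9 : μ * (1 / (16 * (1 - η) ^ 2)) = μ / (16 * (1 - η) ^ 2) := by ring
  linarith

end

end Pool.Agent.R253.KF
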