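import Pool.Agent.R253.KF.Theta2

set_option autoImplicit false

namespace Pool.Agent.R253.KF

open Complex Metric Set Filter Topology MeasureTheory ComplexConjugate
open Pool.Agent.R253.BE

section

variable {η : ℝ} (h0 : 0 < η) (h1 : η < 1)

include h0 h1

lemma Th_cont_circ {μ : ℝ} : Continuous fun θ : ℝ => Th μ η (circleMap 0 1 θ) := by
  apply (Th_cont h0 h1).comp_continuous (continuous_circleMap 0 1)
  intro θ
  simp

lemma circ_sub_one (θ : ℝ) : ‖1 - circleMap 0 1 θ‖ ≤ |θ| := by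
  have h := Real.norm_exp_I_mul_ofReal_sub_one_le (x := θ)
  rw [norm_sub_rev]
  unfold circleMap
  rw [zero_add, Complex.ofReal_one, one_mul, mul_comm (θ:ℂ) I]
  simpa using h

lemma circ_eta_upper (θ : ℝ) (hθ : 0 ≤ θ) : ‖1 - (η:ℂ) * circleMap 0 1 θ‖ ≤ (1 - η) + θ := by
  have e : 1 - (η:ℂ) * circleMap 0 1 θ = (((1 - η : ℝ)) : ℂ) + (η:ℂ) * (1 - circleMap 0 1 θ) := by
    push_cast; ring
  rw [e]
  refine (norm_add_le _ _).trans ?_
  rw [norm_mul, Complex.norm_real, Complex.norm_real, Real.norm_eq_abs, Real.norm_eq_abs,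
    abs_of_pos h0, abs_of_pos (by linarith : (0:ℝ) < 1 - η)]
  have h := circ_sub_one h0 h1 θ
  rw [abs_of_nonneg hθ] at h
  have h2 : 0 ≤ ‖1 - circleMap 0 1 θ‖ := norm_nonneg _
  nlinarith

lemma log_int : Real.log (1 / (1 - η)) ≤ ∫ θ in (0:ℝ)..1, 1 / ((1 - η) + θ) := by
  have hη : 0 < 1 - η := by linarith
  have hd : ∀ θ ∈ uIcc (0:ℝ) 1, HasDerivAt (fun θ => Real.log ((1 - η) + θ)) (1 / ((1 - η) + θ)) θ := by
    intro θ hθ
    rw [uIcc_of_le zero_le_one] at hθ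
    have hp : (1 - η) + θ ≠ 0 := by have := hθ.1; linarith
    have h := ((hasDerivAt_id θ).const_add (1 - η)).log hp
    simpa using h
  have hi : IntervalIntegrable (fun θ => 1 / ((1 - η) + θ)) volume 0 1 := by
    apply ContinuousOn.intervalIntegrable
    apply ContinuousOn.div continuousOn_const (by fun_prop)
    intro θ hθ
    rw [uIcc_of_le zero_le_one] at hθ
    have := hθ.1; linarith
  rw [intervalIntegral.integral_eq_sub_of_hasDerivAt hd hi, add_zero, ← Real.log_div (by linarith) hη.ne']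
  apply Real.log_le_log (by positivity)
  apply div_le_div_of_nonneg_right _ hη.le
  linarith

/-- lower bound of the half-order mean of `Θ` -/
lemma Th_lower {μ : ℝ} (hμ : 0 < μ) :
    Real.sqrt (μ * η) * Real.log (1 / (1 - η)) - 2 * Real.pi ≤
      ∫ θ in (0:ℝ)..(2 * Real.pi), ‖Th μ η (circleMap 0 1 θ)‖ ^ (1 / 2 : ℝ) := by
  have hη : 0 < 1 - η := by linarith
  have hc : Continuous fun θ : ℝ => ‖1 - (η:ℂ) * circleMap 0 1 θ‖ := by
    have := continuous_circleMap 0 1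
    fun_prop
  have hp : ∀ θ : ℝ, 0 < ‖1 - (η:ℂ) * circleMap 0 1 θ‖ := fun θ =>
    lt_of_lt_of_le hη (circ_eta_lower h0 h1 θ)
  have hk : Continuous fun θ : ℝ => Real.sqrt (μ * η) * (1 / ‖1 - (η:ℂ) * circleMap 0 1 θ‖) := by
    apply Continuous.mul continuous_const
    exact Continuous.div continuous_const hc fun θ => (hp θ).ne'
  have hle : ∀ θ : ℝ, Real.sqrt (μ * η) * (1 / ‖1 - (η:ℂ) * circleMap 0 1 θ‖) - 1 ≤
      ‖Th μ η (circleMap 0 1 θ)‖ ^ (1 / 2 : ℝ) := by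
    intro θ
    have e1 : Real.sqrt (μ * η) * (1 / ‖1 - (η:ℂ) * circleMap 0 1 θ‖) =
        ‖Th μ η (circleMap 0 1 θ) - 1‖ ^ (1 / 2 : ℝ) := by
      rw [Th_sub_one h0 h1 hμ.le, ← Real.sqrt_eq_rpow, Real.sqrt_div (by positivity),
        Real.sqrt_sq (norm_nonneg _)]
      ring
    rw [e1]
    have e2 : ‖Th μ η (circleMap 0 1 θ) - 1‖ ≤ ‖Th μ η (circleMap 0 1 θ)‖ + 1 := by
      have := norm_sub_le (Th μ η (circleMap 0 1 θ)) 1
      rwa [norm_one] at this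
    have e3 : ‖Th μ η (circleMap 0 1 θ) - 1‖ ^ (1 / 2 : ℝ) ≤
        (‖Th μ η (circleMap 0 1 θ)‖ + 1) ^ (1 / 2 : ℝ) :=
      Real.rpow_le_rpow (norm_nonneg _) e2 (by norm_num)
    have e4 := Real.rpow_add_le_add_rpow (norm_nonneg (Th μ η (circleMap 0 1 θ)))
      (zero_le_one' ℝ) (p := 1 / 2) (by norm_num) (by norm_num)
    rw [Real.one_rpow] at e4
    linarith
  have hT : Continuous fun θ : ℝ => ‖Th μ η (circleMap 0 1 θ)‖ ^ (1 / 2 : ℝ) :=
    (Th_cont_circ h0 h1).norm.rpow_const fun θ => Or.inr (by norm_num)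
  have hpi : (0:ℝ) ≤ 2 * Real.pi := by positivity
  have s1 : ∫ θ in (0:ℝ)..(2 * Real.pi), (Real.sqrt (μ * η) * (1 / ‖1 - (η:ℂ) * circleMap 0 1 θ‖) - 1)
      ≤ ∫ θ in (0:ℝ)..(2 * Real.pi), ‖Th μ η (circleMap 0 1 θ)‖ ^ (1 / 2 : ℝ) :=
    intervalIntegral.integral_mono_on hpi ((hk.sub continuous_const).intervalIntegrable _ _)
      (hT.intervalIntegrable _ _) fun θ _ => hle θ
  have s2 : ∫ θ in (0:ℝ)..(2 * Real.pi), (Real.sqrt (μ * η) * (1 / ‖1 - (η:ℂ) * circleMap 0 1 θ‖) - 1)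
      = (∫ θ in (0:ℝ)..(2 * Real.pi), Real.sqrt (μ * η) * (1 / ‖1 - (η:ℂ) * circleMap 0 1 θ‖))
        - 2 * Real.pi := by
    rw [intervalIntegral.integral_sub (hk.intervalIntegrable _ _)
      (continuous_const.intervalIntegrable _ _)]
    simp
  have s3 : ∫ θ in (0:ℝ)..1, Real.sqrt (μ * η) * (1 / ‖1 - (η:ℂ) * circleMap 0 1 θ‖) ≤
      ∫ θ in (0:ℝ)..(2 * Real.pi), Real.sqrt (μ * η) * (1 / ‖1 - (η:ℂ) * circleMap 0 1 θ‖) := by
    rw [← intervalIntegral.integral_add_adjacent_intervals (hk.intervalIntegrable 0 1)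
      (hk.intervalIntegrable 1 (2 * Real.pi))]
    have : 0 ≤ ∫ θ in (1:ℝ)..(2 * Real.pi), Real.sqrt (μ * η) * (1 / ‖1 - (η:ℂ) * circleMap 0 1 θ‖) := by
      apply intervalIntegral.integral_nonneg
      · have := Real.pi_gt_three; linarith
      · intro θ _; positivity
    linarith
  have s4 : ∫ θ in (0:ℝ)..1, Real.sqrt (μ * η) * (1 / ((1 - η) + θ)) ≤
      ∫ θ in (0:ℝ)..1, Real.sqrt (μ * η) * (1 / ‖1 - (η:ℂ) * circleMap 0 1 θ‖) := by
    apply intervalIntegral.integral_mono_on zero_le_one _ (hk.intervalIntegrable _ _)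
    · intro θ hθ
      have h2 := circ_eta_upper h0 h1 θ hθ.1
      have h3 := hp θ
      apply mul_le_mul_of_nonneg_left _ (Real.sqrt_nonneg _)
      exact one_div_le_one_div_of_le h3 h2
    · apply ContinuousOn.intervalIntegrable
      apply ContinuousOn.mul continuousOn_const
      apply ContinuousOn.div continuousOn_const (by fun_prop)
      intro θ hθ
      rw [uIcc_of_le zero_le_one] at hθ
      have := hθ.1; linarith
  rw [intervalIntegral.integral_const_mul] at s4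
  have s5 := mul_le_mul_of_nonneg_left (log_int h0 h1) (Real.sqrt_nonneg (μ * η))
  linarith

/-- the key bound -/
lemma kap_bound {ζ : ℂ} (hζ : ‖ζ‖ = 1) (hζ1 : ζ.re < 1) (h2 : 1 / 2 ≤ η) {r ν : ℝ} (hr : 1 ≤ r)
    (hν : ν * r = r - 1 / 2) :
    ‖exp (-(ν:ℂ) * Lam ζ η η)‖ ^ r *
      ∫ θ in (0:ℝ)..(2 * Real.pi), ‖Th (2 - 2 * ζ.re) η (circleMap 0 1 θ) - 1‖ ^ r ≤
      2 * Real.pi * (16 ^ (r - 1 / 2) * Real.sqrt (2 - 2 * ζ.re)) := by
  set μ : ℝ := 2 - 2 * ζ.re with hμd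
  have hμ : 0 < μ := by linarith
  have hη : 0 < 1 - η := by linarith
  have hw : ‖(η:ℂ)‖ < 1 / η := by
    rw [Complex.norm_real, Real.norm_eq_abs, abs_of_pos h0, lt_div_iff₀ h0]; nlinarith
  have e1 : exp (Lam ζ η η) = Th μ η η := exp_Lam hζ h0 hw
  have e2 : ‖exp (-(ν:ℂ) * Lam ζ η η)‖ = ‖Th μ η η‖ ^ (-ν) := by
    rw [← e1, Complex.norm_exp, Complex.norm_exp, ← Real.exp_mul]
    congr 1
    rw [show -(ν:ℂ) = ((-ν : ℝ) : ℂ) by push_cast; rfl, Complex.re_ofReal_mul]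
    ring
  have hT := Th_eta h0 h1 hμ h2
  have hT0 : 0 < μ / (16 * (1 - η) ^ 2) := by positivity
  have hTp : 0 < ‖Th μ η η‖ := lt_of_lt_of_le hT0 hT
  have e3 : ‖exp (-(ν:ℂ) * Lam ζ η η)‖ ^ r ≤ (μ / (16 * (1 - η) ^ 2)) ^ (-(r - 1 / 2)) := by
    rw [e2, ← Real.rpow_mul hTp.le, neg_mul, hν]
    exact Real.rpow_le_rpow_of_nonpos hT0 hT (by linarith)
  have hb := Th_bound h0 h1 hμ hr
  have hI : 0 ≤ ∫ θ in (0:ℝ)..(2 * Real.pi), ‖Th μ η (circleMap 0 1 θ) - 1‖ ^ r :=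
    intervalIntegral.integral_nonneg (by positivity) fun θ _ => by positivity
  refine (mul_le_mul e3 hb hI (by positivity)).trans (le_of_eq ?_)
  have e4 : (μ / (16 * (1 - η) ^ 2)) ^ (-(r - 1 / 2)) =
      μ ^ (-(r - 1 / 2)) * (16 ^ (r - 1 / 2) * (1 - η) ^ (2 * r - 1)) := by
    rw [Real.div_rpow hμ.le (by positivity), Real.mul_rpow (by norm_num) (by positivity),
      ← Real.rpow_natCast (1 - η) 2, ← Real.rpow_mul hη.le, Real.rpow_neg (x := 16) (by norm_num)]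
    have e5 : ((2:ℕ):ℝ) * -(r - 1 / 2) = -(2 * r - 1) := by push_cast; ring
    rw [e5, Real.rpow_neg hη.le]
    field_simp
  rw [e4]
  have e6 : (1 - η) ^ (2 * r - 1) * (1 - η) ^ (1 - 2 * r) = 1 := by
    rw [← Real.rpow_add hη]
    rw [show 2 * r - 1 + (1 - 2 * r) = 0 by ring, Real.rpow_zero]
  have e7 : μ ^ (-(r - 1 / 2)) * μ ^ r = Real.sqrt μ := by
    rw [← Real.rpow_add hμ, Real.sqrt_eq_rpow]
    congr 1; ring
  calc μ ^ (-(r - 1 / 2)) * (16 ^ (r - 1 / 2) * (1 - η) ^ (2 * r - 1)) *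
        (2 * Real.pi * (μ ^ r * (1 - η) ^ (1 - 2 * r)))
      = 2 * Real.pi * (16 ^ (r - 1 / 2) * (μ ^ (-(r - 1 / 2)) * μ ^ r)) *
        ((1 - η) ^ (2 * r - 1) * (1 - η) ^ (1 - 2 * r)) := by ring
    _ = _ := by rw [e6, e7]; ring

end

end Pool.Agent.R253.KF
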