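import Pool.Agent.R253.KF.Lim

set_option autoImplicit false

namespace Pool.Agent.R253.KF

open Complex Metric Set Filter Topology MeasureTheory ComplexConjugate
open Pool.Agent.R253.BE

/-- Fatou's lemma on the disc -/
lemma fatou_ball {f : ℕ → ℂ → ℝ} {g : ℂ → ℝ} {B : ℝ} (hf0 : ∀ j z, 0 ≤ f j z)
    (hfi : ∀ j, IntegrableOn (f j) (ball 0 1)) (hB : ∀ j, ∫ z in ball (0:ℂ) 1, f j z ≤ B)
    (hgm : AEStronglyMeasurable g (volume.restrict (ball (0:ℂ) 1)))
    (hlim : ∀ z ∈ ball (0:ℂ) 1, Tendsto (fun j => f j z) atTop (𝓝 (g z))) :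
    IntegrableOn g (ball 0 1) ∧ ∫ z in ball (0:ℂ) 1, g z ≤ B := by
  set μ := volume.restrict (ball (0:ℂ) 1) with hμ
  have hB0 : 0 ≤ B := (integral_nonneg (hf0 0)).trans (hB 0)
  have hae : ∀ᵐ z ∂μ, z ∈ ball (0:ℂ) 1 := ae_restrict_mem measurableSet_ball
  have hg0 : 0 ≤ᵐ[μ] g := by
    filter_upwards [hae] with z hz
    exact ge_of_tendsto' (hlim z hz) fun j => hf0 j z
  have h1 : ∫⁻ z, ENNReal.ofReal (g z) ∂μ ≤ ENNReal.ofReal B := by
    calc ∫⁻ z, ENNReal.ofReal (g z) ∂μ = ∫⁻ z, liminf (fun j => ENNReal.ofReal (f j z)) atTop ∂μ := by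
          apply lintegral_congr_ae
          filter_upwards [hae] with z hz
          exact ((ENNReal.tendsto_ofReal (hlim z hz)).liminf_eq).symm
      _ ≤ liminf (fun j => ∫⁻ z, ENNReal.ofReal (f j z) ∂μ) atTop :=
          lintegral_liminf_le' fun j => (hfi j).aestronglyMeasurable.aemeasurable.ennreal_ofReal
      _ ≤ ENNReal.ofReal B := by
          apply liminf_le_of_le (by isBoundedDefault)
          intro b hb
          obtain ⟨j, hj⟩ := hb.exists
          refine hj.trans ?_
          rw [← ofReal_integral_eq_lintegral_ofReal (hfi j) (Eventually.of_forall (hf0 j))]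
          exact ENNReal.ofReal_le_ofReal (hB j)
  have hgi : Integrable g μ := by
    refine ⟨hgm, ?_⟩
    rw [hasFiniteIntegral_iff_ofReal hg0]
    exact lt_of_le_of_lt h1 ENNReal.ofReal_lt_top
  refine ⟨hgi, ?_⟩
  have h2 := ofReal_integral_eq_lintegral_ofReal hgi hg0
  rw [← h2] at h1
  exact (ENNReal.ofReal_le_ofReal_iff hB0).1 h1

/-- boundedness in `L^q` and pointwise convergence imply weak convergence -/
lemma weak_lim {p q : ℝ} (hpq : p.HolderConjugate q) {g : ℕ → ℂ → ℂ} {g0 f : ℂ → ℂ} {B : ℝ}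
    (hgc : ∀ j, ContinuousOn (g j) (ball 0 1)) (hg0c : ContinuousOn g0 (ball 0 1))
    (hgi : ∀ j, IntegrableOn (fun z => ‖g j z‖ ^ q) (ball 0 1))
    (hgB : ∀ j, ∫ z in ball (0:ℂ) 1, ‖g j z‖ ^ q ≤ B)
    (hg0i : IntegrableOn (fun z => ‖g0 z‖ ^ q) (ball 0 1))
    (hg0B : ∫ z in ball (0:ℂ) 1, ‖g0 z‖ ^ q ≤ B)
    (hlim : ∀ z ∈ ball (0:ℂ) 1, Tendsto (fun j => g j z) atTop (𝓝 (g0 z)))
    (hf : ContinuousOn f (ball 0 1)) (hfi : IntegrableOn (fun z => ‖f z‖ ^ p) (ball 0 1)) :
    Tendsto (fun j => ∫ z in ball (0:ℂ) 1, g j z * conj (f z)) atTop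
      (𝓝 (∫ z in ball (0:ℂ) 1, g0 z * conj (f z))) := by
  have hp := hpq.pos
  have hq := hpq.symm.pos
  have hq1 := hpq.symm.lt
  set μ := volume.restrict (ball (0:ℂ) 1) with hμ
  have hae : ∀ᵐ z ∂μ, z ∈ ball (0:ℂ) 1 := ae_restrict_mem measurableSet_ball
  have hm : ∀ h : ℂ → ℂ, ContinuousOn h (ball 0 1) → AEStronglyMeasurable h μ := fun h hh =>
    hh.aestronglyMeasurable measurableSet_ball
  have hprod : ∀ h : ℂ → ℂ, ContinuousOn h (ball 0 1) → Integrable (fun z => ‖h z‖ ^ q) μ →
      Integrable (fun z => h z * conj (f z)) μ := by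
    intro h hh hi
    apply Integrable.mono' (g := fun z => ‖f z‖ ^ p / p + ‖h z‖ ^ q / q)
    · exact (hfi.div_const _).add (hi.div_const _)
    · exact (hm h hh).mul (Complex.continuous_conj.comp_aestronglyMeasurable (hm f hf))
    · apply Eventually.of_forall
      intro z
      rw [norm_mul, RCLike.norm_conj, mul_comm]
      exact Real.young_inequality_of_nonneg (norm_nonneg _) (norm_nonneg _) hpq
  have hB0 : 0 ≤ B := (integral_nonneg fun z => by positivity).trans hg0B
  -- the deviation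
  set D : ℝ := 2 ^ q * (B + B) with hD
  have hD0 : 0 ≤ D := by positivity
  have hdi : ∀ j, Integrable (fun z => ‖g j z - g0 z‖ ^ q) μ ∧ ∫ z, ‖g j z - g0 z‖ ^ q ∂μ ≤ D := by
    intro j
    have hle : ∀ z, ‖g j z - g0 z‖ ^ q ≤ 2 ^ q * (‖g j z‖ ^ q + ‖g0 z‖ ^ q) := fun z =>
      (Real.rpow_le_rpow (norm_nonneg _) (norm_sub_le _ _) hq.le).trans
        (add_rpow_le (norm_nonneg _) (norm_nonneg _) hq.le)
    have hi2 : Integrable (fun z => 2 ^ q * (‖g j z‖ ^ q + ‖g0 z‖ ^ q)) μ :=
      ((hgi j).add hg0i).const_mul _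
    have hi1 : Integrable (fun z => ‖g j z - g0 z‖ ^ q) μ := by
      apply Integrable.mono' hi2
      · exact (((hgc j).sub hg0c).norm.rpow_const fun _ _ => Or.inr hq.le).aestronglyMeasurable
          measurableSet_ball
      · apply Eventually.of_forall
        intro z
        rw [Real.norm_eq_abs, abs_of_nonneg (by positivity)]
        exact hle z
    refine ⟨hi1, (integral_mono hi1 hi2 hle).trans ?_⟩
    rw [integral_const_mul, integral_add (hgi j) hg0i]
    have := hgB j
    have h2 : (0:ℝ) ≤ 2 ^ q := by positivity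
    rw [hD]
    gcongr
  -- the elementary inequality
  have key : ∀ M d x : ℝ, 0 < M → 0 ≤ d → 0 ≤ x →
      d * x ≤ min (d * x) (M * x ^ p) + M ^ (1 - q) * d ^ q := by
    intro M d x hM hd hx
    rcases le_total (d * x) (M * x ^ p) with h | h
    · rw [min_eq_left h]
      have : 0 ≤ M ^ (1 - q) * d ^ q := by positivity
      linarith
    · rw [min_eq_right h]
      have h0 : 0 ≤ M * x ^ p := by positivity
      rcases hx.eq_or_lt with hx0 | hx0
      · rw [← hx0, mul_zero, Real.zero_rpow hp.ne', mul_zero, zero_add]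
        positivity
      · -- M x^{p-1} ≤ d
        have h1 : M * x ^ (p - 1) ≤ d := by
          have e : x ^ p = x ^ (p - 1) * x := by
            rw [← Real.rpow_add_one hx0.ne']; congr 1; ring
          rw [e, ← mul_assoc] at h
          exact le_of_mul_le_mul_right h hx0
        have h2 : x ^ (p - 1) ≤ d / M := by rw [le_div_iff₀ hM]; linarith
        have hpq1 : (p - 1) * (q - 1) = 1 := by
          have := hpq.mul_eq_add
          linarith
        have h3 : x ≤ (d / M) ^ (q - 1) := by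
          have h4 := Real.rpow_le_rpow (by positivity) h2 (by linarith : 0 ≤ q - 1)
          rwa [← Real.rpow_mul hx, hpq1, Real.rpow_one] at h4
        have h5 : d * x ≤ M ^ (1 - q) * d ^ q := by
          calc d * x ≤ d * (d / M) ^ (q - 1) := mul_le_mul_of_nonneg_left h3 hd
            _ = M ^ (1 - q) * d ^ q := by
                rcases hd.eq_or_lt with hd0 | hd0
                · rw [← hd0, Real.zero_rpow hq.ne']; simp
                · rw [Real.div_rpow hd hM.le, show (1 - q) = -(q - 1) by ring, Real.rpow_neg hM.le]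
                  have e : d ^ q = d * d ^ (q - 1) := by
                    rw [mul_comm, ← Real.rpow_add_one hd0.ne']; congr 1; ring
                  rw [e]
                  ring
        linarith
  rw [Metric.tendsto_atTop]
  intro ε hε
  -- the choice of `M`
  have hMlim : Tendsto (fun M : ℝ => M ^ (1 - q) * D) atTop (𝓝 0) := by
    have h1 := tendsto_rpow_neg_atTop (show 0 < q - 1 by linarith)
    have h2 := h1.mul_const D
    rw [zero_mul] at h2
    have e : -(q - 1) = 1 - q := by ring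
    rwa [e] at h2
  obtain ⟨M, hM1, hM0⟩ := ((hMlim.eventually (gt_mem_nhds (half_pos hε))).and
    (eventually_gt_atTop 0)).exists
  set mn : ℕ → ℂ → ℝ := fun j z => min (‖g j z - g0 z‖ * ‖f z‖) (M * ‖f z‖ ^ p) with hmn
  have hmn0 : ∀ j z, 0 ≤ mn j z := fun j z => le_min (by positivity) (by positivity)
  have hmnm : ∀ j, AEStronglyMeasurable (mn j) μ := by
    intro j
    apply ContinuousOn.aestronglyMeasurable _ measurableSet_ball
    apply ContinuousOn.inf
    · exact ((hgc j).sub hg0c).norm.mul hf.norm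
    · exact continuousOn_const.mul (hf.norm.rpow_const fun _ _ => Or.inr hp.le)
  have hbi : Integrable (fun z => M * ‖f z‖ ^ p) μ := hfi.const_mul _
  have hmi : ∀ j, Integrable (mn j) μ := by
    intro j
    apply Integrable.mono' hbi (hmnm j)
    apply Eventually.of_forall
    intro z
    rw [Real.norm_eq_abs, abs_of_nonneg (hmn0 j z)]
    exact min_le_right _ _
  have hml : Tendsto (fun j => ∫ z, mn j z ∂μ) atTop (𝓝 0) := by
    have h1 := tendsto_integral_of_dominated_convergence (F := mn) (f := fun _ => (0:ℝ))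
      (fun z => M * ‖f z‖ ^ p) hmnm hbi (fun j => Eventually.of_forall fun z => by
        rw [Real.norm_eq_abs, abs_of_nonneg (hmn0 j z)]
        exact min_le_right _ _) (by
        filter_upwards [hae] with z hz
        have h2 : Tendsto (fun j => ‖g j z - g0 z‖ * ‖f z‖) atTop (𝓝 0) := by
          have := (tendsto_iff_norm_sub_tendsto_zero.1 (hlim z hz)).mul_const ‖f z‖
          rwa [zero_mul] at this
        exact squeeze_zero (fun j => hmn0 j z) (fun j => min_le_left _ _) h2)
    rwa [integral_zero] at h1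
  have hev := hml.eventually (gt_mem_nhds (half_pos hε))
  obtain ⟨N, hN⟩ := eventually_atTop.1 hev
  refine ⟨N, fun j hj => ?_⟩
  have hN' := hN j hj
  rw [dist_eq_norm, ← integral_sub (hprod _ (hgc j) (hgi j)) (hprod _ hg0c hg0i)]
  refine lt_of_le_of_lt (norm_integral_le_integral_norm _) ?_
  have hi3 : Integrable (fun z => mn j z + M ^ (1 - q) * ‖g j z - g0 z‖ ^ q) μ :=
    (hmi j).add ((hdi j).1.const_mul _)
  have h4 : ∫ z, ‖g j z * conj (f z) - g0 z * conj (f z)‖ ∂μ ≤
      ∫ z, (mn j z + M ^ (1 - q) * ‖g j z - g0 z‖ ^ q) ∂μ := by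
    apply integral_mono ((hprod _ (hgc j) (hgi j)).sub (hprod _ hg0c hg0i)).norm hi3
    intro z
    simp only [Pi.sub_apply]
    rw [← sub_mul, norm_mul, RCLike.norm_conj]
    exact key M _ _ hM0 (norm_nonneg _) (norm_nonneg _)
  refine lt_of_le_of_lt h4 ?_
  rw [integral_add (hmi j) ((hdi j).1.const_mul _), integral_const_mul]
  have h5 : M ^ (1 - q) * ∫ z, ‖g j z - g0 z‖ ^ q ∂μ ≤ M ^ (1 - q) * D :=
    mul_le_mul_of_nonneg_left (hdi j).2 (by positivity)
  linarith

end Pool.Agent.R253.KF
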